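import Pool.Agent.W2helper40.MO.Up
import Pool.Agent.W2helper40.RC.Lfl

set_option autoImplicit false

/-! Deterministic part: no long cycles above a large number, and the relation between the map `H` of the
problem and the map which divides by `d` once. -/

namespace Pool.Agent.W2helper40.MO

open MeasureTheory ProbabilityTheory Finset Filter Topology
open Pool.Agent.W2helper40.RC (lfl_exp)

/-- admissible remainders of moderate size from `x₁` on -/
def Adm (d m : ℕ) (r : ℕ → ℤ) (x₁ : ℕ) : Prop :=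
  ∀ x, x₁ ≤ x → x % d ≠ 0 → (d : ℤ) ∣ m * x - r x ∧ (r x) ^ 2 ≤ 4 * x

/-- the configuration of values -/
def yy (d m : ℕ) (r : ℕ → ℤ) (x : ℕ) : ℤ := (m * x - r x) / d

theorem val_spec {d m : ℕ} (hd : 2 ≤ d) (hm : 1 ≤ m) {r : ℕ → ℤ} {x₁ : ℕ} (hr : Adm d m r x₁)
    {x : ℕ} (hx : x₁ ≤ x) (hx16 : 16 ≤ x) (hxd : x % d ≠ 0) :
    0 < (m : ℤ) * x - r x ∧ ((m : ℤ) * x - r x) = d * (S d (yy d m r) x : ℤ) ∧
      0 < S d (yy d m r) x := by
  obtain ⟨⟨q, hq⟩, h2⟩ := hr x hx hxd
  have hd0 : (0 : ℤ) < d := by exact_mod_cast (by omega : 0 < d)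
  have hrx : r x < x := by
    by_contra hc
    push Not at hc
    have hx0 : (16 : ℤ) ≤ x := by exact_mod_cast hx16
    nlinarith
  have hpos : 0 < (m : ℤ) * x - r x := by
    have hm1 : (1 : ℤ) ≤ m := by exact_mod_cast hm
    have hx0 : (0 : ℤ) ≤ x := by positivity
    nlinarith
  have hS : S d (yy d m r) x = q.toNat := by
    unfold S yy
    rw [if_neg hxd, hq, Int.mul_ediv_cancel_left _ hd0.ne']
  have hq0 : 0 < q := by
    rw [hq] at hpos
    exact (mul_pos_iff_of_pos_left hd0).1 hpos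
  refine ⟨hpos, ?_, ?_⟩
  · rw [hS, Int.toNat_of_nonneg hq0.le, hq]
  · rw [hS]
    omega

theorem step_log {d m : ℕ} (hd : 2 ≤ d) (hm : 1 ≤ m) {r : ℕ → ℤ} {x₁ : ℕ} (hr : Adm d m r x₁)
    {x N : ℕ} (hN1 : x₁ ≤ N) (hN16 : 16 ≤ N) (hx : N ≤ x) : ∃ o : ℕ, o ≤ 1 ∧
      |Real.log (S d (yy d m r) x) - (Real.log x + o * Real.log m - Real.log d)| ≤
        4 / Real.sqrt N := by
  have hNr : (0 : ℝ) < N := by exact_mod_cast (by omega : 0 < N)
  have hx0 : (0 : ℝ) < x := by exact_mod_cast (by omega : 0 < x)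
  have hd0 : (0 : ℝ) < d := by exact_mod_cast (by omega : 0 < d)
  have hm0 : (0 : ℝ) < m := by exact_mod_cast (by omega : 0 < m)
  have hsN : 0 < Real.sqrt N := Real.sqrt_pos.2 hNr
  by_cases he : x % d = 0
  · refine ⟨0, by omega, ?_⟩
    have h1 : S d (yy d m r) x = x / d := by
      unfold S
      rw [if_pos he]
    have h2 : ((x / d : ℕ) : ℝ) = (x : ℝ) / d := by
      have : (x : ℝ) = d * ((x / d : ℕ) : ℝ) := by
        exact_mod_cast (Nat.mul_div_cancel' (Nat.dvd_of_mod_eq_zero he)).symm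
      rw [eq_div_iff hd0.ne']
      linarith
    rw [h1, h2, Real.log_div hx0.ne' hd0.ne']
    have : Real.log x - Real.log d - (Real.log x + ((0 : ℕ) : ℝ) * Real.log m - Real.log d) = 0 := by
      push_cast
      ring
    rw [this, abs_zero]
    positivity
  · refine ⟨1, le_rfl, ?_⟩
    obtain ⟨h1, h2, h3⟩ := val_spec hd hm hr (hN1.trans hx) (hN16.trans hx) he
    obtain ⟨_, h4⟩ := hr x (hN1.trans hx) he
    set z := S d (yy d m r) x with hz
    have hz0 : (0 : ℝ) < z := by exact_mod_cast h3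
    have h2r : (m : ℝ) * x - r x = d * z := by exact_mod_cast h2
    have h4r : ((r x : ℤ) : ℝ) ^ 2 ≤ 4 * x := by exact_mod_cast h4
    set s := Real.sqrt x with hs
    have hs2 : s * s = x := Real.mul_self_sqrt hx0.le
    have hs4 : 4 ≤ s := by
      rw [hs]
      apply Real.le_sqrt_of_sq_le
      norm_num
      exact_mod_cast hN16.trans hx
    have hrs : |((r x : ℤ) : ℝ)| ≤ 2 * s := by
      apply abs_le_of_sq_le_sq _ (by linarith)
      nlinarith
    set u : ℝ := -((r x : ℤ) : ℝ) / (m * x) with hu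
    have hm1 : (1 : ℝ) ≤ m := by exact_mod_cast hm
    have hus : |u| ≤ 2 / s := by
      rw [hu, abs_div, abs_neg, abs_of_pos (show (0 : ℝ) < m * x by positivity),
        div_le_div_iff₀ (by positivity) (by linarith)]
      calc |((r x : ℤ) : ℝ)| * s ≤ 2 * s * s := mul_le_mul_of_nonneg_right hrs (by linarith)
        _ = 2 * x := by rw [mul_assoc, hs2]
        _ ≤ 2 * (m * x) := by nlinarith
    have hu2 : 2 / s ≤ 1 / 2 := by
      rw [div_le_div_iff₀ (by linarith) (by norm_num)]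
      linarith
    have hua := abs_le.1 hus
    have hu1 : 0 < 1 + u := by linarith
    have hlog : Real.log z = Real.log x + Real.log m - Real.log d + Real.log (1 + u) := by
      have e1 : (d : ℝ) * z = m * x * (1 + u) := by
        rw [← h2r, hu]
        field_simp
        ring
      have e2 := congrArg Real.log e1
      rw [Real.log_mul hd0.ne' hz0.ne', Real.log_mul (by positivity) hu1.ne',
        Real.log_mul hm0.ne' hx0.ne'] at e2
      linarith
    have h5 : Real.log z - (Real.log x + ((1 : ℕ) : ℝ) * Real.log m - Real.log d) =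
        Real.log (1 + u) := by
      rw [hlog]
      push_cast
      ring
    rw [h5, abs_le]
    have h6 := Real.log_le_sub_one_of_pos hu1
    have h7 := Real.one_sub_inv_le_log_of_pos hu1
    have hsNs : 2 * (2 / s) ≤ 4 / Real.sqrt N := by
      have : Real.sqrt N ≤ s := Real.sqrt_le_sqrt (by exact_mod_cast hx)
      have h8 : 2 * (2 / s) = 4 / s := by ring
      rw [h8]
      exact div_le_div_of_nonneg_left (by norm_num) hsN this
    have hs0 : 0 < 2 / s := by positivity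
    have h8 : -(2 * (2 / s)) ≤ 1 - (1 + u)⁻¹ := by
      have e1 : 1 - (1 + u)⁻¹ = u / (1 + u) := by
        field_simp
        ring
      rw [e1, le_div_iff₀ hu1]
      rcases le_or_gt 0 u with hx0 | hx0
      · nlinarith
      · nlinarith
    constructor <;> linarith

theorem steps_log {d m : ℕ} (hd : 2 ≤ d) (hm : 1 ≤ m) {r : ℕ → ℤ} {x₁ : ℕ} (hr : Adm d m r x₁)
    {n z : ℕ} (hN1 : x₁ ≤ n) (hN16 : 16 ≤ n) (s : ℕ) :
    (∀ i < s, n ≤ (S d (yy d m r))^[i] z) → ∃ o : ℕ, o ≤ s ∧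
      |Real.log ((S d (yy d m r))^[s] z) - (Real.log z + o * Real.log m - s * Real.log d)| ≤
        s * (4 / Real.sqrt n) := by
  induction s with
  | zero => exact fun _ => ⟨0, le_rfl, by simp⟩
  | succ s ih =>
    intro hall
    obtain ⟨o, ho, h1⟩ := ih (fun i hi => hall i (by omega))
    obtain ⟨o', ho', h2⟩ := step_log hd hm hr hN1 hN16 (hall s (by omega))
    refine ⟨o + o', by omega, ?_⟩
    rw [Function.iterate_succ_apply']
    have h3 : Real.log (S d (yy d m r) ((S d (yy d m r))^[s] z)) -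
        (Real.log z + ((o + o' : ℕ) : ℝ) * Real.log m - ((s + 1 : ℕ) : ℝ) * Real.log d) =
        (Real.log (S d (yy d m r) ((S d (yy d m r))^[s] z)) -
          (Real.log ((S d (yy d m r))^[s] z) + o' * Real.log m - Real.log d)) +
        (Real.log ((S d (yy d m r))^[s] z) - (Real.log z + o * Real.log m - s * Real.log d)) := by
      push_cast
      ring
    rw [h3]
    refine (abs_add_le _ _).trans ?_
    push_cast
    linarith

theorem log_ne {d m : ℕ} (hd : 2 ≤ d) (hm : 1 ≤ m) (hco : Nat.Coprime m d) (a b : ℕ) (ha : 1 ≤ a)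
    : (b : ℝ) * Real.log m - a * Real.log d ≠ 0 := by
  intro h
  have h1 : Real.log ((m : ℝ) ^ b) = Real.log ((d : ℝ) ^ a) := by
    rw [Real.log_pow, Real.log_pow]
    linarith
  have hm0 : (0 : ℝ) < m := by exact_mod_cast hm
  have hd0 : (0 : ℝ) < d := by exact_mod_cast (by omega : 0 < d)
  have h2 := Real.log_injOn_pos (Set.mem_Ioi.2 (by positivity)) (Set.mem_Ioi.2 (by positivity)) h1
  have h3 : m ^ b = d ^ a := by exact_mod_cast h2
  have h4 : Nat.Coprime (m ^ b) (d ^ a) := Nat.Coprime.pow _ _ hco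
  rw [h3, Nat.coprime_self] at h4
  have h5 : 1 < d ^ a := Nat.one_lt_pow (by omega) (by omega)
  omega

/-- a lower bound for the linear forms, all cases -/
theorem lin_low {d m : ℕ} (hd : 2 ≤ d) (hm : 1 ≤ m) (hco : Nat.Coprime m d) {ε : ℝ} (hε : 0 < ε) :
    ∃ κ : ℝ, 0 < κ ∧ ∀ a b : ℕ, 1 ≤ a → b ≤ a →
      κ * Real.exp (-(ε * (a + b))) ≤ |(b : ℝ) * Real.log m - a * Real.log d| := by
  have hld : 0 < Real.log d := Real.log_pos (by exact_mod_cast (by omega : 1 < d))
  have hexp : ∀ a b : ℕ, Real.exp (-(ε * ((a : ℝ) + b))) ≤ 1 := by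
    intro a b
    rw [Real.exp_le_one_iff]
    have : 0 ≤ ε * ((a : ℝ) + b) := by positivity
    linarith
  have hsmall : ∀ a : ℕ, 1 ≤ a → Real.log d ≤ |(0 : ℝ) - a * Real.log d| := by
    intro a ha
    have har : (1 : ℝ) ≤ a := by exact_mod_cast ha
    rw [zero_sub, abs_neg, abs_of_pos (by positivity)]
    nlinarith
  by_cases hm2 : 2 ≤ m
  · obtain ⟨κ, hκ0, hκ⟩ := lfl_exp d m hd hm2 (fun a b ha _ => log_ne hd hm hco a b ha) hε
    refine ⟨min κ (Real.log d), lt_min hκ0 hld, fun a b ha hb => ?_⟩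
    rcases Nat.eq_zero_or_pos b with rfl | hb0
    · have := hsmall a ha
      simp only [Nat.cast_zero, zero_mul]
      refine le_trans ?_ this
      have h1 := hexp a 0
      simp only [Nat.cast_zero] at h1
      calc min κ (Real.log d) * Real.exp (-(ε * (a + 0))) ≤ Real.log d * 1 :=
            mul_le_mul (min_le_right _ _) h1 (Real.exp_pos _).le hld.le
        _ = Real.log d := mul_one _
    · refine le_trans ?_ (hκ a b ha hb0)
      exact mul_le_mul_of_nonneg_right (min_le_left _ _) (Real.exp_pos _).le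
  · have hm1 : m = 1 := by omega
    subst hm1
    refine ⟨Real.log d, hld, fun a b ha _ => ?_⟩
    simp only [Nat.cast_one, Real.log_one, mul_zero]
    refine le_trans ?_ (hsmall a ha)
    calc Real.log d * Real.exp (-(ε * (a + b))) ≤ Real.log d * 1 :=
          mul_le_mul_of_nonneg_left (hexp a b) hld.le
      _ = Real.log d := mul_one _

/-- no cycle of length at most `C log n + 1` above `n`, for large `n` -/
theorem no_cycle {d m : ℕ} (hd : 2 ≤ d) (hm : 1 ≤ m) (hco : Nat.Coprime m d) {r : ℕ → ℤ} {x₁ : ℕ}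
    (hr : Adm d m r x₁) {C : ℝ} (hC : 0 ≤ C) : ∀ᶠ n : ℕ in atTop, ∀ z p : ℕ, 1 ≤ p →
      (p : ℝ) ≤ C * Real.log n + 1 → (∀ i < p, n ≤ (S d (yy d m r))^[i] z) →
      (S d (yy d m r))^[p] z ≠ z := by
  set ε : ℝ := 1 / (8 * (C + 1)) with hε
  have hε0 : 0 < ε := by positivity
  obtain ⟨κ, hκ0, hκ⟩ := lin_low hd hm hco hε0
  have hlim : ∀ᶠ n : ℕ in atTop, 4 * (C * Real.log n + 1) <
      κ * Real.exp (-(2 * ε)) * (n : ℝ) ^ (1 / 4 : ℝ) := by
    have h1 : Tendsto (fun x : ℝ => Real.log x / x ^ (1 / 4 : ℝ)) atTop (𝓝 0) :=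
      (isLittleO_log_rpow_atTop (show (0 : ℝ) < 1 / 4 by norm_num)).tendsto_div_nhds_zero
    have h2 : Tendsto (fun x : ℝ => 1 / x ^ (1 / 4 : ℝ)) atTop (𝓝 0) :=
      tendsto_const_nhds.div_atTop (tendsto_rpow_atTop (by norm_num))
    have h3 : Tendsto (fun x : ℝ => 4 * C * (Real.log x / x ^ (1 / 4 : ℝ)) +
        4 * (1 / x ^ (1 / 4 : ℝ))) atTop (𝓝 0) := by
      have := (h1.const_mul (4 * C)).add (h2.const_mul 4)
      simpa using this
    have h4 := (h3.comp tendsto_natCast_atTop_atTop).eventually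
      (gt_mem_nhds (show 0 < κ * Real.exp (-(2 * ε)) by positivity))
    filter_upwards [h4, eventually_ge_atTop 1] with n hn hn1
    have hn0 : (0 : ℝ) < n := by exact_mod_cast hn1
    have hp : (0 : ℝ) < (n : ℝ) ^ (1 / 4 : ℝ) := by positivity
    simp only [Function.comp] at hn
    have h5 : 4 * C * (Real.log n / (n : ℝ) ^ (1 / 4 : ℝ)) + 4 * (1 / (n : ℝ) ^ (1 / 4 : ℝ)) =
        (4 * (C * Real.log n + 1)) / (n : ℝ) ^ (1 / 4 : ℝ) := by
      field_simp
    rw [h5, div_lt_iff₀ hp] at hn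
    exact hn
  filter_upwards [hlim, eventually_ge_atTop (max x₁ 16)] with n h2 hn z p hp1 hpC hall hper
  have hn1 : x₁ ≤ n := (le_max_left _ _).trans hn
  have hn16 : 16 ≤ n := (le_max_right _ _).trans hn
  obtain ⟨o, ho, h5⟩ := steps_log hd hm hr hn1 hn16 p hall
  rw [hper] at h5
  have hn0 : (0 : ℝ) < n := by exact_mod_cast (by omega : 0 < n)
  have hln : 0 ≤ Real.log n := Real.log_nonneg (by exact_mod_cast (by omega : 1 ≤ n))
  have h6 : |(o : ℝ) * Real.log m - p * Real.log d| ≤ p * (4 / Real.sqrt n) := by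
    have e1 : Real.log z - (Real.log z + o * Real.log m - p * Real.log d) =
        -((o : ℝ) * Real.log m - p * Real.log d) := by ring
    rw [e1, abs_neg] at h5
    exact h5
  have h8 : κ * Real.exp (-(ε * (p + o))) ≤ p * (4 / Real.sqrt n) := (hκ p o hp1 ho).trans h6
  have hop : (o : ℝ) ≤ p := by exact_mod_cast ho
  have h9 : Real.exp (-(2 * ε)) * (n : ℝ) ^ (-(1 / 4) : ℝ) ≤ Real.exp (-(ε * (p + o))) := by
    rw [Real.rpow_def_of_pos hn0, ← Real.exp_add]
    apply Real.exp_le_exp.2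
    have e5 : ε * ((p : ℝ) + o) ≤ ε * (2 * (C * Real.log n + 1)) :=
      mul_le_mul_of_nonneg_left (by linarith) hε0.le
    have e6 : ε * (2 * (C * Real.log n)) ≤ 1 / 4 * Real.log n := by
      rw [hε]
      have e7 : 1 / (8 * (C + 1)) * (2 * (C * Real.log n)) =
          (C / (C + 1)) * (1 / 4 * Real.log n) := by
        field_simp
        ring
      rw [e7]
      apply mul_le_of_le_one_left (by positivity)
      rw [div_le_one (by positivity)]
      linarith
    linarith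
  have h10 : κ * (Real.exp (-(2 * ε)) * (n : ℝ) ^ (-(1 / 4) : ℝ)) ≤
      (C * Real.log n + 1) * (4 / Real.sqrt n) :=
    (mul_le_mul_of_nonneg_left h9 hκ0.le).trans
      (h8.trans (mul_le_mul_of_nonneg_right hpC (by positivity)))
  have h11 : (n : ℝ) ^ (-(1 / 4) : ℝ) * Real.sqrt n = (n : ℝ) ^ (1 / 4 : ℝ) := by
    rw [Real.sqrt_eq_rpow, ← Real.rpow_add hn0]
    norm_num
  have h12 := mul_le_mul_of_nonneg_right h10 (Real.sqrt_nonneg n)
  have h13 : (C * Real.log n + 1) * (4 / Real.sqrt n) * Real.sqrt n =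
      4 * (C * Real.log n + 1) := by
    have : Real.sqrt n ≠ 0 := by positivity
    field_simp
  have h14 : κ * (Real.exp (-(2 * ε)) * (n : ℝ) ^ (-(1 / 4) : ℝ)) * Real.sqrt n =
      κ * Real.exp (-(2 * ε)) * (n : ℝ) ^ (1 / 4 : ℝ) := by
    rw [← h11]
    ring
  rw [h13, h14] at h12
  linarith

/-! ### the map `H` -/

/-- the map of the problem, with remainders depending on the number -/
noncomputable def H (d m : ℕ) (r : ℕ → ℤ) (x : ℕ) : ℕ :=
  ((m : ℤ) * x - r x).toNat / d ^ multiplicity d ((m : ℤ) * x - r x).toNat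

theorem H_spec {d m : ℕ} (hd : 2 ≤ d) {r : ℕ → ℤ} {x : ℕ} (h : 0 < (m : ℤ) * x - r x) :
    ∃ a : ℕ, ((m : ℤ) * x - r x).toNat = d ^ a * H d m r x ∧ ¬ d ∣ H d m r x := by
  set v := ((m : ℤ) * x - r x).toNat with hv
  have hv0 : 0 < v := by omega
  have hfin : FiniteMultiplicity d v := Nat.finiteMultiplicity_iff.2 ⟨by omega, hv0⟩
  obtain ⟨c, hc1, hc2⟩ := hfin.exists_eq_pow_mul_and_not_dvd
  have hH : H d m r x = c := by
    unfold H
    rw [← hv]
    conv_lhs => lhs; rw [hc1]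
    exact Nat.mul_div_cancel_left _ (by positivity)
  exact ⟨_, by rw [hH]; exact hc1, by rw [hH]; exact hc2⟩

theorem S_pow {d : ℕ} (hd : 2 ≤ d) (y : ℕ → ℤ) (a c : ℕ) : S d y (d ^ (a + 1) * c) = d ^ a * c := by
  unfold S
  have h1 : d ^ (a + 1) * c % d = 0 := by
    rw [pow_succ, mul_comm (d ^ a) d, mul_assoc]
    exact Nat.mul_mod_right _ _
  rw [if_pos h1, pow_succ, mul_comm (d ^ a) d, mul_assoc]
  exact Nat.mul_div_cancel_left _ (by omega)

/-- the orbit is defined up to `k` -/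
def Def (d m : ℕ) (r : ℕ → ℤ) (n k : ℕ) : Prop :=
  ∀ i < k, r ((H d m r)^[i] n) < m * ((H d m r)^[i] n : ℕ)

theorem orbit_rel {d m : ℕ} (hd : 2 ≤ d) (hm : 1 ≤ m) {r : ℕ → ℤ} {x₁ : ℕ} (hr : Adm d m r x₁)
    {n : ℕ} (hn1 : x₁ ≤ n) (hn16 : 16 ≤ n) (hnd : ¬ d ∣ n) {K : ℕ}
    (hK : ∀ k, 1 ≤ k → k ≤ K → Def d m r n k → n ≤ (H d m r)^[k] n) (i : ℕ) :
    i ≤ K → ∃ k a : ℕ, k ≤ i ∧ (S d (yy d m r))^[i] n = d ^ a * (H d m r)^[k] n ∧
      ¬ d ∣ (H d m r)^[k] n ∧ n ≤ (H d m r)^[k] n ∧ Def d m r n k := by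
  induction i with
  | zero =>
    intro _
    exact ⟨0, 0, le_rfl, by simp, hnd, le_rfl, fun i hi => absurd hi (by omega)⟩
  | succ i ih =>
    intro hi
    obtain ⟨k, a, hk, h1, h2, h3, h4⟩ := ih (by omega)
    rw [Function.iterate_succ_apply', h1]
    rcases Nat.eq_zero_or_pos a with ha | ha
    · subst ha
      rw [pow_zero, one_mul]
      set x := (H d m r)^[k] n with hx
      have hxd : x % d ≠ 0 := fun h0 => h2 (Nat.dvd_of_mod_eq_zero h0)
      obtain ⟨h5, h6, h7⟩ := val_spec hd hm hr (hn1.trans h3) (hn16.trans h3) hxd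
      obtain ⟨b, h8, h9⟩ := H_spec hd h5
      have hdef : Def d m r n (k + 1) := by
        intro j hj
        rcases Nat.lt_succ_iff_lt_or_eq.1 hj with hj | hj
        · exact h4 j hj
        · rw [hj, ← hx]
          linarith
      have h10 := hK (k + 1) (by omega) (by omega) hdef
      have h11 : (H d m r)^[k + 1] n = H d m r x := by
        rw [Function.iterate_succ_apply']
      have h12 : d * S d (yy d m r) x = d ^ b * H d m r x := by
        rw [← h8, h6]
        have : ((d : ℤ) * (S d (yy d m r) x : ℤ)) = ((d * S d (yy d m r) x : ℕ) : ℤ) := by push_cast; rfl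
        rw [this, Int.toNat_natCast]
      have hb : 1 ≤ b := by
        by_contra hb
        have : b = 0 := by omega
        rw [this, pow_zero, one_mul] at h12
        exact h9 ⟨_, h12.symm⟩
      obtain ⟨b', rfl⟩ : ∃ b', b = b' + 1 := ⟨b - 1, by omega⟩
      refine ⟨k + 1, b', by omega, ?_, by rw [h11]; exact h9, h10, hdef⟩
      rw [h11]
      have hd0 : 0 < d := by omega
      apply Nat.eq_of_mul_eq_mul_left hd0
      rw [h12, pow_succ]
      ring
    · obtain ⟨a', rfl⟩ : ∃ a', a = a' + 1 := ⟨a - 1, by omega⟩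
      exact ⟨k, a', by omega, S_pow hd _ _ _, h2, h3, h4⟩

/-- the deterministic conclusion -/
theorem descend {d m : ℕ} (hd : 2 ≤ d) (hm : 1 ≤ m) (hco : Nat.Coprime m d) {r : ℕ → ℤ} {x₁ : ℕ}
    (hr : Adm d m r x₁) {C : ℝ} (hC : 0 ≤ C) {N₀ : ℕ}
    (hesc : ∀ᶠ n : ℕ in atTop, ¬ Esc d N₀ (yy d m r) ⌈C * Real.log n⌉₊ ∅ n) :
    ∀ᶠ n : ℕ in atTop, ¬ d ∣ n → ∃ k : ℕ, 1 ≤ k ∧ (k : ℝ) ≤ (C + 1) * Real.log n ∧
      Def d m r n k ∧ (H d m r)^[k] n < n := by
  filter_upwards [hesc, no_cycle hd hm hco hr hC, eventually_ge_atTop (max (max x₁ 16) N₀)]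
    with n h1 h2 hn hnd
  have hn1 : x₁ ≤ n := ((le_max_left _ _).trans (le_max_left _ _)).trans hn
  have hn16 : 16 ≤ n := ((le_max_right _ _).trans (le_max_left _ _)).trans hn
  have hnN : N₀ ≤ n := (le_max_right _ _).trans hn
  have hn0 : (0 : ℝ) < n := by exact_mod_cast (by omega : 0 < n)
  have hln1 : 1 ≤ Real.log n := by
    rw [Real.le_log_iff_exp_le hn0]
    have h3 := Real.exp_one_lt_d9
    have h4 : (16 : ℝ) ≤ n := by exact_mod_cast hn16
    linarith
  set K := ⌈C * Real.log n⌉₊ with hK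
  have hKr : (K : ℝ) ≤ C * Real.log n + 1 := (Nat.ceil_lt_add_one (by positivity)).le
  by_contra hcon
  push Not at hcon
  have hall : ∀ k, 1 ≤ k → k ≤ K → Def d m r n k → n ≤ (H d m r)^[k] n := by
    intro k hk1 hk2 hdef
    apply hcon k hk1 _ hdef
    have : (k : ℝ) ≤ K := by exact_mod_cast hk2
    linarith
  have hge : ∀ i, i ≤ K → n ≤ (S d (yy d m r))^[i] n := by
    intro i hi
    obtain ⟨k, a, _, h3, _, h4, _⟩ := orbit_rel hd hm hr hn1 hn16 hnd hall i hi
    rw [h3]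
    exact h4.trans (Nat.le_mul_of_pos_left _ (by positivity))
  obtain ⟨i, hi, h3 | h3 | ⟨i', hi', h3⟩⟩ := not_esc _ _ _ h1
  · have := hge i hi.le
    omega
  · simp at h3
  · apply h2 ((S d (yy d m r))^[i'] n) (i - i') (by omega)
    · have : ((i - i' : ℕ) : ℝ) ≤ K := by exact_mod_cast (by omega : i - i' ≤ K)
      linarith
    · intro j hj
      rw [← Function.iterate_add_apply]
      exact hge _ (by omega)
    · rw [← Function.iterate_add_apply, Nat.sub_add_cancel hi'.le]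
      exact h3.symm

end Pool.Agent.W2helper40.MO
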