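import Pool.Agent.W2helper40.RC.Ind

set_option autoImplicit false

/-! General maps `n / d`, or the value `y n` at the `n` which are not divisible by `d`: escape
probabilities. -/

namespace Pool.Agent.W2helper40.MO

open MeasureTheory ProbabilityTheory Finset Filter Topology
open Pool.Agent.W2helper40.RC (Dep indep_dep)

variable {Ω : Type*} [MeasurableSpace Ω]

/-- the map -/
def S (d : ℕ) (y : ℕ → ℤ) (n : ℕ) : ℕ := if n % d = 0 then n / d else (y n).toNat

/-- the random configuration: at the `n ≥ x₀` not divisible by `d` the value is uniformly distributed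
on the integers in `[lo n, hi n)` -/
structure Env (d x₀ : ℕ) (lo hi : ℕ → ℤ) (P : Measure Ω) (Y : ℕ → Ω → ℤ) : Prop where
  meas : ∀ n, Measurable (Y n)
  ind : iIndepFun Y P
  law : ∀ n, x₀ ≤ n → n % d ≠ 0 → ∀ j ∈ Finset.Ico (lo n) (hi n),
    P.real {ω | Y n ω = j} = 1 / ((hi n - lo n : ℤ) : ℝ)
  supp : ∀ n, x₀ ≤ n → n % d ≠ 0 → P.real {ω | Y n ω ∉ Finset.Ico (lo n) (hi n)} = 0
  pos : ∀ n, x₀ ≤ n → n % d ≠ 0 → 1 ≤ lo n ∧ lo n < hi n

/-- the orbit of `n` stays above `N₀` and does not repeat for `k` steps, and avoids `A` -/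
def Esc (d N₀ : ℕ) (y : ℕ → ℤ) : ℕ → Finset ℕ → ℕ → Prop
  | 0, _, _ => True
  | k + 1, A, n => n ∉ A ∧ N₀ ≤ n ∧ Esc d N₀ y k (insert n A) (S d y n)

theorem esc_bound {d x₀ : ℕ} {lo hi : ℕ → ℤ} {P : Measure Ω} [IsProbabilityMeasure P]
    {Y : ℕ → Ω → ℤ} (hd : 2 ≤ d) (hE : Env d x₀ lo hi P Y) {N₀ : ℕ} (hN : x₀ ≤ N₀)
    {h : ℕ → ℝ} {lam : ℝ} (hlam : 0 ≤ lam)
    (h1 : ∀ n, 1 ≤ n → 1 ≤ h n) (heven : ∀ n, N₀ ≤ n → n % d = 0 → h (n / d) ≤ lam * h n)
    (hodd : ∀ n, N₀ ≤ n → n % d ≠ 0 →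
      ∑ j ∈ Ico (lo n) (hi n), h j.toNat ≤ ((hi n - lo n : ℤ) : ℝ) * (lam * h n)) (k : ℕ) :
    ∀ (A : Finset ℕ) (n : ℕ) (E : (ℕ → ℤ) → Prop), 1 ≤ n → Dep E A →
      P.real {ω | E (fun i => Y i ω) ∧ Esc d N₀ (fun i => Y i ω) k A n} ≤
        P.real {ω | E (fun i => Y i ω)} * (lam ^ k * h n) := by
  induction k with
  | zero =>
    intro A n E hn hd
    simp only [Esc, and_true, pow_zero, one_mul]
    exact le_mul_of_one_le_right measureReal_nonneg (h1 n hn)
  | succ k ih =>
    intro A n E hn hdep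
    have hpos : 0 ≤ P.real {ω | E (fun i => Y i ω)} * (lam ^ (k + 1) * h n) :=
      mul_nonneg measureReal_nonneg (mul_nonneg (pow_nonneg hlam _) (zero_le_one.trans (h1 n hn)))
    by_cases hc : n ∉ A ∧ N₀ ≤ n
    swap
    · have : {ω | E (fun i => Y i ω) ∧ Esc d N₀ (fun i => Y i ω) (k + 1) A n} = ∅ := by
        ext ω
        simp only [Set.mem_ofPred_eq, Set.mem_empty_iff_false, iff_false, Esc]
        rintro ⟨_, h2, h3, _⟩
        exact hc ⟨h2, h3⟩
      rw [this, measureReal_empty]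
      exact hpos
    obtain ⟨hnA, hnN⟩ := hc
    by_cases hev : n % d = 0
    · have e1 : {ω | E (fun i => Y i ω) ∧ Esc d N₀ (fun i => Y i ω) (k + 1) A n} =
          {ω | E (fun i => Y i ω) ∧ Esc d N₀ (fun i => Y i ω) k (insert n A) (n / d)} := by
        ext ω
        simp only [Set.mem_ofPred_eq, Esc, S, hev, if_true, hnA, hnN, not_false_eq_true, true_and]
      have hnd : 1 ≤ n / d := Nat.div_pos (Nat.le_of_dvd hn (Nat.dvd_of_mod_eq_zero hev)) (by omega)
      rw [e1]
      refine (ih (insert n A) (n / d) E hnd (hdep.mono (by simp))).trans ?_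
      apply mul_le_mul_of_nonneg_left _ measureReal_nonneg
      rw [pow_succ, mul_assoc]
      exact mul_le_mul_of_nonneg_left (heven n hnN hev) (pow_nonneg hlam _)
    · obtain ⟨hlo, hlh⟩ := hE.pos n (hN.trans hnN) hev
      have hJ : (0 : ℝ) < ((hi n - lo n : ℤ) : ℝ) := by
        exact_mod_cast (by omega : 0 < hi n - lo n)
      have e1 : {ω | E (fun i => Y i ω) ∧ Esc d N₀ (fun i => Y i ω) (k + 1) A n} ⊆
          {ω | Y n ω ∉ Ico (lo n) (hi n)} ∪
          ⋃ j ∈ Ico (lo n) (hi n), {ω | (E (fun i => Y i ω) ∧ Y n ω = j) ∧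
            Esc d N₀ (fun i => Y i ω) k (insert n A) j.toNat} := by
        intro ω hω
        simp only [Set.mem_ofPred_eq, Esc, S, hev, hnA, hnN, not_false_eq_true, true_and,
          if_false] at hω
        by_cases hy : Y n ω ∈ Ico (lo n) (hi n)
        · right
          simp only [Set.mem_iUnion]
          exact ⟨Y n ω, hy, ⟨hω.1, rfl⟩, hω.2⟩
        · left
          exact hy
      refine (measureReal_mono e1).trans ((measureReal_union_le _ _).trans ?_)
      rw [hE.supp n (hN.trans hnN) hev, zero_add]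
      refine (measureReal_biUnion_finset_le _ _).trans ?_
      have e2 : ∀ j ∈ Ico (lo n) (hi n),
          P.real {ω | (E (fun i => Y i ω) ∧ Y n ω = j) ∧
            Esc d N₀ (fun i => Y i ω) k (insert n A) j.toNat} ≤
          P.real {ω | E (fun i => Y i ω)} * (1 / ((hi n - lo n : ℤ) : ℝ)) *
            (lam ^ k * h j.toNat) := by
        intro j hj
        have hdn : Dep (fun y => y n = j) ({n} : Finset ℕ) := by
          intro y y' hy
          have : y n = y' n := hy n (by simp)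
          simp only [this]
        have hd2 : Dep (fun y => E y ∧ y n = j) (insert n A : Finset ℕ) := by
          refine (hdep.mono (by simp)).and (hdn.mono (by simp))
        have hj1 := (mem_Ico.1 hj).1
        refine (ih (insert n A) j.toNat (fun y => E y ∧ y n = j) (by omega) hd2).trans_eq ?_
        rw [indep_dep hE.meas hE.ind (U := A) (V := {n}) (by simpa using hnA) hdep hdn,
          hE.law n (hN.trans hnN) hev j hj]
      refine (Finset.sum_le_sum e2).trans ?_
      rw [← Finset.mul_sum, ← Finset.mul_sum, mul_assoc]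
      apply mul_le_mul_of_nonneg_left _ measureReal_nonneg
      have h3 := mul_le_mul_of_nonneg_left (hodd n hnN hev) (pow_nonneg hlam k)
      calc 1 / ((hi n - lo n : ℤ) : ℝ) * (lam ^ k * ∑ j ∈ Ico (lo n) (hi n), h j.toNat)
          ≤ 1 / ((hi n - lo n : ℤ) : ℝ) *
            (lam ^ k * (((hi n - lo n : ℤ) : ℝ) * (lam * h n))) :=
            mul_le_mul_of_nonneg_left h3 (by positivity)
        _ = lam ^ (k + 1) * h n := by
            field_simp
            ring

end Pool.Agent.W2helper40.MO
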