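import Pool.Agent.W2helper40.MO.Det

set_option autoImplicit false

/-! The theorem in terms of the random remainders. -/

namespace Pool.Agent.W2helper40.MO

open MeasureTheory ProbabilityTheory Finset Filter Topology

universe u

/-- lower end of the values -/
def loF (d m : ℕ) (L : ℕ → ℕ) (c : ℕ → ℤ) (n : ℕ) : ℤ := -((c n + L n - m * n) / d)

/-- upper end of the values -/
def hiF (d m : ℕ) (L : ℕ → ℕ) (c : ℕ → ℤ) (n : ℕ) : ℤ := (m * n - c n + L n) / d + 1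

theorem set_eq {d m : ℕ} (hd : 2 ≤ d) (L : ℕ → ℕ) (c : ℕ → ℤ) (n : ℕ) :
    {r : ℤ | (d : ℤ) ∣ m * n - r ∧ |r - c n| ≤ L n} =
      (((Ico (loF d m L c n) (hiF d m L c n)).image (fun j => (m : ℤ) * n - d * j) : Finset ℤ) :
        Set ℤ) := by
  have hd0 : (0 : ℤ) < d := by exact_mod_cast (by omega : 0 < d)
  ext r
  simp only [Set.mem_ofPred_eq, coe_image, Set.mem_image, coe_Ico, Set.mem_Ico]
  have key : ∀ q : ℤ, (loF d m L c n ≤ q ∧ q < hiF d m L c n) ↔ |((m : ℤ) * n - d * q) - c n| ≤ L n := by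
    intro q
    unfold loF hiF
    rw [Int.lt_add_one_iff, Int.le_ediv_iff_mul_le hd0, neg_le, Int.le_ediv_iff_mul_le hd0, abs_le]
    constructor
    · rintro ⟨h1, h2⟩
      constructor <;> linarith
    · rintro ⟨h1, h2⟩
      constructor <;> linarith
  constructor
  · rintro ⟨⟨q, hq⟩, h⟩
    refine ⟨q, (key q).2 ?_, by linarith⟩
    rwa [show (m : ℤ) * n - d * q = r by linarith]
  · rintro ⟨q, hq, rfl⟩
    refine ⟨⟨q, by ring⟩, (key q).1 hq⟩

theorem lohi_len {d m : ℕ} (hd : 2 ≤ d) (L : ℕ → ℕ) (c : ℕ → ℤ) (n : ℕ) :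
    2 * (L n : ℤ) - d < d * (hiF d m L c n - loF d m L c n) := by
  have hd0 : (0 : ℤ) < d := by exact_mod_cast (by omega : 0 < d)
  have h1 := Int.lt_mul_ediv_self_add (x := (m : ℤ) * n - c n + L n) hd0
  have h2 := Int.lt_mul_ediv_self_add (x := c n + L n - (m : ℤ) * n) hd0
  unfold hiF loF
  have e : (d : ℤ) * ((m * n - c n + L n) / d + 1 - -((c n + L n - m * n) / d)) =
      d * ((m * n - c n + L n) / d) + d + d * ((c n + L n - m * n) / d) := by ring
  rw [e]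
  linarith

theorem lo_pos {d m : ℕ} (hd : 2 ≤ d) (hm : 1 ≤ m) {L : ℕ → ℕ} {c : ℕ → ℤ} {n : ℕ} (hn : 5 ≤ n)
    (hL : (L n) ^ 2 ≤ n) (hc : (c n) ^ 2 ≤ n) : 1 ≤ loF d m L c n := by
  have hd0 : (0 : ℤ) < d := by exact_mod_cast (by omega : 0 < d)
  have hLz : (L n : ℤ) ^ 2 ≤ n := by exact_mod_cast hL
  have hn5 : (5 : ℤ) ≤ n := by exact_mod_cast hn
  have h1 : c n + L n < n := by
    by_contra h
    push Not at h
    nlinarith [sq_nonneg (c n - L n)]
  have hm1 : (1 : ℤ) ≤ m := by exact_mod_cast hm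
  have h2 : c n + L n - (m : ℤ) * n < 0 := by nlinarith
  have h3 : (c n + L n - (m : ℤ) * n) / d < 0 := Int.ediv_neg_of_neg_of_pos h2 hd0
  unfold loF
  omega

theorem env_of {Ω : Type u} [MeasurableSpace Ω] {d m : ℕ} (hd : 2 ≤ d) (hm : 1 ≤ m) {L : ℕ → ℕ}
    {c : ℕ → ℤ} {P : Measure Ω} [IsProbabilityMeasure P] {ρ : ℕ → Ω → ℤ} (hmeas : ∀ n, Measurable (ρ n))
    (hind : iIndepFun ρ P) {x₀ : ℕ} (hx5 : 5 ≤ x₀)
    (hL : ∀ n, x₀ ≤ n → d ≤ L n ∧ (L n) ^ 2 ≤ n ∧ (c n) ^ 2 ≤ n)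
    (hlaw : ∀ n, x₀ ≤ n → ¬ d ∣ n →
      P.map (ρ n) = uniformOn {r : ℤ | (d : ℤ) ∣ m * n - r ∧ |r - c n| ≤ L n}) :
    Env d x₀ (loF d m L c) (hiF d m L c) P (fun n ω => (m * n - ρ n ω) / d) := by
  have hd0 : (0 : ℤ) < d := by exact_mod_cast (by omega : 0 < d)
  have hpos : ∀ n, x₀ ≤ n → n % d ≠ 0 →
      1 ≤ loF d m L c n ∧ loF d m L c n < hiF d m L c n := by
    intro n hn _
    obtain ⟨h1, h2, h3⟩ := hL n hn
    refine ⟨lo_pos hd hm (by omega) h2 h3, ?_⟩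
    have h4 := lohi_len (m := m) hd L c n
    have h5 : (d : ℤ) ≤ L n := by exact_mod_cast h1
    have h6 : 0 < (d : ℤ) * (hiF d m L c n - loF d m L c n) := by linarith
    have h7 := (mul_pos_iff_of_pos_left hd0).1 h6
    linarith
  refine ⟨fun n => (measurable_of_countable (fun z : ℤ => ((m : ℤ) * n - z) / d)).comp (hmeas n),
    hind.comp (fun n z => ((m : ℤ) * n - z) / d) fun _ => measurable_of_countable _, ?_, ?_, hpos⟩
  · intro n hn hnd j hj
    obtain ⟨hp1, hp2⟩ := hpos n hn hnd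
    have h1 : P.real {ω | ((m : ℤ) * n - ρ n ω) / d = j} =
        (P.map (ρ n)).real {r : ℤ | ((m : ℤ) * n - r) / d = j} := by
      rw [map_measureReal_apply (hmeas n) (Set.to_countable _).measurableSet]
      rfl
    rw [h1, hlaw n hn (fun h => hnd (Nat.mod_eq_zero_of_dvd h)), set_eq hd, measureReal_def,
      ← uniformOn_inter_self (Finset.finite_toSet _)]
    have h2 : ((((Ico (loF d m L c n) (hiF d m L c n)).image (fun j => (m : ℤ) * n - d * j) :
        Finset ℤ) : Set ℤ) ∩ {r : ℤ | ((m : ℤ) * n - r) / d = j}) =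
        ((({(m : ℤ) * n - d * j} : Finset ℤ)) : Set ℤ) := by
      ext r
      simp only [coe_image, coe_Ico, Set.mem_inter_iff, Set.mem_image, Set.mem_Ico,
        Set.mem_ofPred_eq, coe_singleton, Set.mem_singleton_iff]
      constructor
      · rintro ⟨⟨q, hq, rfl⟩, h⟩
        rw [show (m : ℤ) * n - (m * n - d * q) = d * q by ring,
          Int.mul_ediv_cancel_left _ hd0.ne'] at h
        rw [h]
      · rintro rfl
        refine ⟨⟨j, mem_Ico.1 hj, rfl⟩, ?_⟩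
        rw [show (m : ℤ) * n - (m * n - d * j) = d * j by ring,
          Int.mul_ediv_cancel_left _ hd0.ne']
    rw [h2, uniformOn_apply_finset]
    have h3 : ((Ico (loF d m L c n) (hiF d m L c n)).image (fun j => (m : ℤ) * n - d * j)) ∩
        {(m : ℤ) * n - d * j} = {(m : ℤ) * n - d * j} := by
      rw [Finset.inter_eq_right, Finset.singleton_subset_iff, mem_image]
      exact ⟨j, hj, rfl⟩
    have hinj : Function.Injective (fun j : ℤ => (m : ℤ) * n - d * j) := by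
      intro a b h
      have h4 : (d : ℤ) * a = d * b := by
        simp only at h
        linarith
      exact mul_left_cancel₀ hd0.ne' h4
    rw [h3, card_singleton, card_image_of_injective _ hinj, Int.card_Ico]
    have h5 : (((hiF d m L c n - loF d m L c n).toNat : ℕ) : ℝ) =
        ((hiF d m L c n - loF d m L c n : ℤ) : ℝ) := by
      exact_mod_cast Int.toNat_of_nonneg (by omega : 0 ≤ hiF d m L c n - loF d m L c n)
    rw [← h5]
    simp
  · intro n hn hnd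
    have h1 : P.real {ω | ((m : ℤ) * n - ρ n ω) / d ∉ Ico (loF d m L c n) (hiF d m L c n)} =
        (P.map (ρ n)).real {r : ℤ | ((m : ℤ) * n - r) / d ∉ Ico (loF d m L c n) (hiF d m L c n)} := by
      rw [map_measureReal_apply (hmeas n) (Set.to_countable _).measurableSet]
      rfl
    rw [h1, hlaw n hn (fun h => hnd (Nat.mod_eq_zero_of_dvd h)), set_eq hd, measureReal_def,
      (uniformOn_eq_zero_iff (Finset.finite_toSet _)).2]
    · rfl
    · ext r
      simp only [Set.mem_inter_iff, Set.mem_empty_iff_false, iff_false, coe_image, Set.mem_image,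
        coe_Ico, Set.mem_Ico, Set.mem_ofPred_eq, mem_Ico]
      rintro ⟨⟨q, hq, rfl⟩, h⟩
      rw [show (m : ℤ) * n - (m * n - d * q) = d * q by ring,
        Int.mul_ediv_cancel_left _ hd0.ne'] at h
      exact h hq

theorem adm_ae {Ω : Type u} [MeasurableSpace Ω] {d m : ℕ} (hd : 2 ≤ d) {L : ℕ → ℕ}
    {c : ℕ → ℤ} {P : Measure Ω} [IsProbabilityMeasure P] {ρ : ℕ → Ω → ℤ} (hmeas : ∀ n, Measurable (ρ n))
    {x₀ : ℕ} (hL : ∀ n, x₀ ≤ n → d ≤ L n ∧ (L n) ^ 2 ≤ n ∧ (c n) ^ 2 ≤ n)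
    (hlaw : ∀ n, x₀ ≤ n → ¬ d ∣ n →
      P.map (ρ n) = uniformOn {r : ℤ | (d : ℤ) ∣ m * n - r ∧ |r - c n| ≤ L n}) :
    ∀ᵐ ω ∂P, Adm d m (fun i => ρ i ω) x₀ := by
  unfold Adm
  rw [ae_all_iff]
  intro n
  by_cases hn : x₀ ≤ n
  swap
  · exact Eventually.of_forall fun ω h => absurd h hn
  by_cases hnd : n % d = 0
  · exact Eventually.of_forall fun ω _ h => absurd hnd h
  have h1 : P {ω | ¬ ((d : ℤ) ∣ m * n - ρ n ω ∧ |ρ n ω - c n| ≤ L n)} = 0 := by
    have h2 : P {ω | ¬ ((d : ℤ) ∣ m * n - ρ n ω ∧ |ρ n ω - c n| ≤ L n)} =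
        (P.map (ρ n)) ({r : ℤ | (d : ℤ) ∣ m * n - r ∧ |r - c n| ≤ L n})ᶜ := by
      rw [Measure.map_apply (hmeas n) (Set.to_countable _).measurableSet]
      rfl
    rw [h2, hlaw n hn (fun h => hnd (Nat.mod_eq_zero_of_dvd h)), set_eq hd,
      (uniformOn_eq_zero_iff (Finset.finite_toSet _)).2]
    simp
  have h3 : ∀ᵐ ω ∂P, ((d : ℤ) ∣ m * n - ρ n ω ∧ |ρ n ω - c n| ≤ L n) := by
    rw [ae_iff]
    exact h1
  filter_upwards [h3] with ω hω _ _
  refine ⟨hω.1, ?_⟩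
  obtain ⟨_, h4, h5⟩ := hL n hn
  have h4z : (L n : ℤ) ^ 2 ≤ n := by exact_mod_cast h4
  obtain ⟨h6, h7⟩ := abs_le.1 hω.2
  have h8 : (ρ n ω - c n) ^ 2 ≤ (L n : ℤ) ^ 2 := sq_le_sq' h6 h7
  nlinarith [sq_nonneg (ρ n ω - 2 * c n)]

theorem main {d m : ℕ} (hd : 2 ≤ d) (hm : 1 ≤ m) (hco : Nat.Coprime m d)
    (hmd : (m : ℝ) ≤ (d : ℝ) ^ ((d : ℝ) / ((d : ℝ) - 1))) :
    ∃ C : ℝ, 0 < C ∧ ∀ {Ω : Type u} [MeasurableSpace Ω] (P : Measure Ω) [IsProbabilityMeasure P]
      (L : ℕ → ℕ) (c : ℕ → ℤ) (ρ : ℕ → Ω → ℤ), Tendsto L atTop atTop →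
      (∀ᶠ n : ℕ in atTop, (L n) ^ 2 ≤ n ∧ (c n) ^ 2 ≤ n) → (∀ n, Measurable (ρ n)) → iIndepFun ρ P →
      (∀ᶠ n : ℕ in atTop, ¬ d ∣ n →
        P.map (ρ n) = uniformOn {r : ℤ | (d : ℤ) ∣ m * n - r ∧ |r - c n| ≤ L n}) →
      ∀ᵐ ω ∂P, ∀ᶠ n : ℕ in atTop, ¬ d ∣ n → ∃ k : ℕ, 1 ≤ k ∧ (k : ℝ) ≤ C * Real.log n ∧
        Def d m (fun i => ρ i ω) n k ∧ (H d m fun i => ρ i ω)^[k] n < n := by
  have hdr : (2 : ℝ) ≤ d := by exact_mod_cast hd
  have hd0 : (0 : ℝ) < d := by linarith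
  have hm0 : (0 : ℝ) < m := by exact_mod_cast hm
  have hlt : ((d : ℝ) - 1) * Real.log m < d * Real.log d := by
    have h1 : Real.log m ≤ (d : ℝ) / (d - 1) * Real.log d := by
      rw [← Real.log_rpow hd0]
      exact Real.log_le_log hm0 hmd
    have hd1 : (0 : ℝ) < d - 1 := by linarith
    have h2 : ((d : ℝ) - 1) * Real.log m ≤ d * Real.log d := by
      calc ((d : ℝ) - 1) * Real.log m ≤ (d - 1) * ((d : ℝ) / (d - 1) * Real.log d) :=
            mul_le_mul_of_nonneg_left h1 hd1.le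
        _ = d * Real.log d := by field_simp
    refine lt_of_le_of_ne h2 ?_
    intro h3
    have h4 := log_ne hd hm hco d (d - 1) (by omega)
    apply h4
    rw [Nat.cast_sub (by omega)]
    push_cast
    linarith
  obtain ⟨C, hC0, hC⟩ := exists_C.{u} hd hm hlt
  refine ⟨C + 1, by linarith, ?_⟩
  intro Ω _ P _ L c ρ hLt hLc hmeas hind hlaw
  obtain ⟨x₀, hx₀⟩ := eventually_atTop.1 (((hLc.and hlaw).and (hLt.eventually_ge_atTop d)).and
    (eventually_ge_atTop 5))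
  have hx5 : 5 ≤ x₀ := (hx₀ x₀ le_rfl).2
  have hL : ∀ n, x₀ ≤ n → d ≤ L n ∧ (L n) ^ 2 ≤ n ∧ (c n) ^ 2 ≤ n := fun n hn =>
    ⟨(hx₀ n hn).1.2, (hx₀ n hn).1.1.1.1, (hx₀ n hn).1.1.1.2⟩
  have hlaw' : ∀ n, x₀ ≤ n → ¬ d ∣ n →
      P.map (ρ n) = uniformOn {r : ℤ | (d : ℤ) ∣ m * n - r ∧ |r - c n| ≤ L n} := fun n hn =>
    (hx₀ n hn).1.1.2
  have hE := env_of hd hm hmeas hind hx5 hL hlaw'
  have hdz : (0 : ℤ) < d := by exact_mod_cast (by omega : 0 < d)
  -- limits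
  have hN : Tendsto (fun n : ℕ => ((hiF d m L c n - loF d m L c n : ℤ) : ℝ)) atTop atTop := by
    have h1 : Tendsto (fun n : ℕ => 2 / (d : ℝ) * (L n : ℝ) - 1) atTop atTop := by
      have h2 : Tendsto (fun n : ℕ => (L n : ℝ)) atTop atTop :=
        tendsto_natCast_atTop_atTop.comp hLt
      exact tendsto_atTop_add_const_right _ (-1) (h2.const_mul_atTop (by positivity))
    refine tendsto_atTop_mono (fun n => ?_) h1
    have h3 := lohi_len (m := m) hd L c n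
    have h4 : 2 * (L n : ℝ) - d < d * ((hiF d m L c n - loF d m L c n : ℤ) : ℝ) := by exact_mod_cast h3
    have h5 : 2 / (d : ℝ) * (L n : ℝ) - 1 = (2 * (L n : ℝ) - d) / d := by
      field_simp
    rw [h5, div_le_iff₀ hd0]
    linarith
  have hlo : ∀ᶠ n : ℕ in atTop, 1 ≤ loF d m L c n := by
    filter_upwards [eventually_ge_atTop x₀] with n hn
    obtain ⟨h1, h2, h3⟩ := hL n hn
    exact lo_pos hd hm (by omega) h2 h3
  have hH : Tendsto (fun n : ℕ => ((hiF d m L c n : ℤ) : ℝ) / n) atTop (𝓝 ((m : ℝ) / d)) := by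
    have l1 : Tendsto (fun n : ℕ => (2 : ℝ) * (1 / Real.sqrt n) + d * (1 / n)) atTop (𝓝 0) := by
      have h1 : Tendsto (fun n : ℕ => 1 / Real.sqrt n) atTop (𝓝 0) :=
        tendsto_const_nhds.div_atTop (Real.tendsto_sqrt_atTop.comp tendsto_natCast_atTop_atTop)
      have h2 : Tendsto (fun n : ℕ => (1 : ℝ) / n) atTop (𝓝 0) :=
        tendsto_const_div_atTop_nhds_zero_nat 1
      have := (h1.const_mul 2).add (h2.const_mul (d : ℝ))
      simpa using this
    rw [tendsto_iff_norm_sub_tendsto_zero]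
    refine squeeze_zero' (Eventually.of_forall fun n => norm_nonneg _) ?_ l1
    filter_upwards [eventually_ge_atTop x₀] with n hn
    obtain ⟨_, h2, h3⟩ := hL n hn
    have hn0 : (0 : ℝ) < n := by exact_mod_cast (by omega : 0 < n)
    set s := Real.sqrt n with hs
    have hs2 : s * s = n := Real.mul_self_sqrt hn0.le
    have hs0 : 0 < s := Real.sqrt_pos.2 hn0
    have h2r : (L n : ℝ) ≤ s := by
      apply Real.le_sqrt_of_sq_le
      exact_mod_cast h2
    have h3r : |((c n : ℤ) : ℝ)| ≤ s := by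
      apply Real.abs_le_sqrt
      exact_mod_cast h3
    obtain ⟨h4, h5⟩ := abs_le.1 h3r
    have h6 := Int.lt_mul_ediv_self_add (x := (m : ℤ) * n - c n + L n) hdz
    have h7 := Int.mul_ediv_self_le (x := (m : ℤ) * n - c n + L n) (k := (d : ℤ)) hdz.ne'
    have h8 : (d : ℤ) * hiF d m L c n = d * ((m * n - c n + L n) / d) + d := by
      unfold hiF
      ring
    have h9 : ((m : ℝ) * n - c n + L n) < d * ((hiF d m L c n : ℤ) : ℝ) := by
      have : ((m : ℤ) * n - c n + L n) < d * hiF d m L c n := by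
        rw [h8]
        exact h6
      exact_mod_cast this
    have h10 : (d : ℝ) * ((hiF d m L c n : ℤ) : ℝ) ≤ ((m : ℝ) * n - c n + L n) + d := by
      have : (d : ℤ) * hiF d m L c n ≤ ((m : ℤ) * n - c n + L n) + d := by
        rw [h8]
        linarith
      exact_mod_cast this
    rw [Real.norm_eq_abs]
    have h11 : ((hiF d m L c n : ℤ) : ℝ) / n - (m : ℝ) / d =
        (d * ((hiF d m L c n : ℤ) : ℝ) - m * n) / (d * n) := by
      field_simp
    rw [h11, abs_div, abs_of_pos (show (0 : ℝ) < d * n by positivity), div_le_iff₀ (by positivity)]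
    have hL0 : (0 : ℝ) ≤ L n := by positivity
    have h12 : |(d : ℝ) * ((hiF d m L c n : ℤ) : ℝ) - m * n| ≤ 2 * s + d := by
      rw [abs_le]
      constructor <;> linarith
    refine h12.trans ?_
    have h13 : (2 * (1 / s) + d * (1 / n)) * (d * n) = d * (2 * s + d) := by
      have : (n : ℝ) = s * s := hs2.symm
      rw [this]
      field_simp
    rw [h13]
    nlinarith
  obtain ⟨N₀, hN₀⟩ := hC hE hH hN hlo
  filter_upwards [hN₀, adm_ae (m := m) hd hmeas hL hlaw'] with ω hω hadm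
  exact descend hd hm hco hadm hC0.le hω

end Pool.Agent.W2helper40.MO
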