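import Pool.Agent.W2helper40.MO.Lyap2
import Pool.Agent.W2helper40.MO.Det

set_option autoImplicit false

/-! The theorem for windows `c(x) ≤ r < c(x) + d N(x)`. -/

namespace Pool.Agent.W2helper40.MO

open MeasureTheory ProbabilityTheory Finset Filter Topology

universe u

/-- lower end of the values -/
def loW (d m : ℕ) (N : ℕ → ℕ) (c : ℕ → ℤ) (n : ℕ) : ℤ := (m * n - c n) / d - N n + 1

/-- upper end of the values -/
def hiW (d m : ℕ) (c : ℕ → ℤ) (n : ℕ) : ℤ := (m * n - c n) / d + 1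

theorem setW_eq {d m : ℕ} (hd : 2 ≤ d) (N : ℕ → ℕ) (c : ℕ → ℤ) (n : ℕ) :
    {r : ℤ | (d : ℤ) ∣ m * n - r ∧ c n ≤ r ∧ r < c n + d * N n} =
      (((Ico (loW d m N c n) (hiW d m c n)).image (fun j => (m : ℤ) * n - d * j) : Finset ℤ) :
        Set ℤ) := by
  have hd0 : (0 : ℤ) < d := by exact_mod_cast (by omega : 0 < d)
  ext r
  simp only [Set.mem_ofPred_eq, coe_image, Set.mem_image, coe_Ico, Set.mem_Ico]
  have key : ∀ q : ℤ, (loW d m N c n ≤ q ∧ q < hiW d m c n) ↔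
      (c n ≤ (m : ℤ) * n - d * q ∧ (m : ℤ) * n - d * q < c n + d * N n) := by
    intro q
    set A : ℤ := (m : ℤ) * n - c n with hA
    have h1 := Int.lt_mul_ediv_self_add (x := A) hd0
    have h2 := Int.mul_ediv_self_le (x := A) (k := (d : ℤ)) hd0.ne'
    unfold loW hiW
    rw [← hA, Int.lt_add_one_iff]
    constructor
    · rintro ⟨h3, h4⟩
      have h5 : (d : ℤ) * q ≤ d * (A / d) := mul_le_mul_of_nonneg_left h4 hd0.le
      have h6 : (d : ℤ) * (A / d - N n + 1) ≤ d * q := mul_le_mul_of_nonneg_left h3 hd0.le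
      constructor
      · linarith
      · nlinarith
    · rintro ⟨h3, h4⟩
      constructor
      · have h5 : (d : ℤ) * (A / d - N n) < d * q := by
          rw [mul_sub]
          linarith
        have h6 := lt_of_mul_lt_mul_left h5 hd0.le
        linarith
      · rw [Int.le_ediv_iff_mul_le hd0]
        linarith
  constructor
  · rintro ⟨⟨q, hq⟩, h⟩
    refine ⟨q, (key q).2 ?_, by linarith⟩
    rwa [show (m : ℤ) * n - d * q = r by linarith]
  · rintro ⟨q, hq, rfl⟩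
    exact ⟨⟨q, by ring⟩, (key q).1 hq⟩

theorem loW_pos {d m : ℕ} (hd : 2 ≤ d) (hm : 1 ≤ m) {N : ℕ → ℕ} {c : ℕ → ℤ} {n : ℕ} (hn : 5 ≤ n)
    (hN : (d * N n) ^ 2 ≤ n) (hc : (c n) ^ 2 ≤ n) : 1 ≤ loW d m N c n := by
  have hd0 : (0 : ℤ) < d := by exact_mod_cast (by omega : 0 < d)
  have hNz : ((d : ℤ) * N n) ^ 2 ≤ n := by exact_mod_cast hN
  have hn5 : (5 : ℤ) ≤ n := by exact_mod_cast hn
  have h1 : c n + d * N n < n := by
    by_contra h
    push Not at h
    nlinarith [sq_nonneg (c n - d * N n)]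
  have hm1 : (1 : ℤ) ≤ m := by exact_mod_cast hm
  have h2 : (N n : ℤ) ≤ (m * n - c n) / d := by
    rw [Int.le_ediv_iff_mul_le hd0]
    nlinarith
  unfold loW
  omega

theorem envW_of {Ω : Type u} [MeasurableSpace Ω] {d m : ℕ} (hd : 2 ≤ d) (hm : 1 ≤ m) {N : ℕ → ℕ}
    {c : ℕ → ℤ} {P : Measure Ω} [IsProbabilityMeasure P] {ρ : ℕ → Ω → ℤ} (hmeas : ∀ n, Measurable (ρ n))
    (hind : iIndepFun ρ P) {x₀ : ℕ} (hx5 : 5 ≤ x₀)
    (hN : ∀ n, x₀ ≤ n → 1 ≤ N n ∧ (d * N n) ^ 2 ≤ n ∧ (c n) ^ 2 ≤ n)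
    (hlaw : ∀ n, x₀ ≤ n → ¬ d ∣ n →
      P.map (ρ n) = uniformOn {r : ℤ | (d : ℤ) ∣ m * n - r ∧ c n ≤ r ∧ r < c n + d * N n}) :
    Env d x₀ (loW d m N c) (hiW d m c) P (fun n ω => (m * n - ρ n ω) / d) := by
  have hd0 : (0 : ℤ) < d := by exact_mod_cast (by omega : 0 < d)
  have hpos : ∀ n, x₀ ≤ n → n % d ≠ 0 →
      1 ≤ loW d m N c n ∧ loW d m N c n < hiW d m c n := by
    intro n hn _
    obtain ⟨h1, h2, h3⟩ := hN n hn
    refine ⟨loW_pos hd hm (by omega) h2 h3, ?_⟩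
    unfold loW hiW
    omega
  refine ⟨fun n => (measurable_of_countable (fun z : ℤ => ((m : ℤ) * n - z) / d)).comp (hmeas n),
    hind.comp (fun n z => ((m : ℤ) * n - z) / d) fun _ => measurable_of_countable _, ?_, ?_, hpos⟩
  · intro n hn hnd j hj
    obtain ⟨hp1, hp2⟩ := hpos n hn hnd
    have h1 : P.real {ω | ((m : ℤ) * n - ρ n ω) / d = j} =
        (P.map (ρ n)).real {r : ℤ | ((m : ℤ) * n - r) / d = j} := by
      rw [map_measureReal_apply (hmeas n) (Set.to_countable _).measurableSet]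
      rfl
    rw [h1, hlaw n hn (fun h => hnd (Nat.mod_eq_zero_of_dvd h)), setW_eq hd, measureReal_def,
      ← uniformOn_inter_self (Finset.finite_toSet _)]
    have h2 : ((((Ico (loW d m N c n) (hiW d m c n)).image (fun j => (m : ℤ) * n - d * j) :
        Finset ℤ) : Set ℤ) ∩ {r : ℤ | ((m : ℤ) * n - r) / d = j}) =
        ((({(m : ℤ) * n - d * j} : Finset ℤ)) : Set ℤ) := by
      ext r
      simp only [coe_image, coe_Ico, Set.mem_inter_iff, Set.mem_image, Set.mem_Ico,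
        Set.mem_ofPred_eq, coe_singleton, Set.mem_singleton_iff]
      constructor
      · rintro ⟨⟨q, hq, rfl⟩, h⟩
        rw [show (m : ℤ) * n - (m * n - d * q) = d * q by ring,
          Int.mul_ediv_cancel_left _ hd0.ne'] at h
        rw [h]
      · rintro rfl
        refine ⟨⟨j, mem_Ico.1 hj, rfl⟩, ?_⟩
        rw [show (m : ℤ) * n - (m * n - d * j) = d * j by ring,
          Int.mul_ediv_cancel_left _ hd0.ne']
    rw [h2, uniformOn_apply_finset]
    have h3 : ((Ico (loW d m N c n) (hiW d m c n)).image (fun j => (m : ℤ) * n - d * j)) ∩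
        {(m : ℤ) * n - d * j} = {(m : ℤ) * n - d * j} := by
      rw [Finset.inter_eq_right, Finset.singleton_subset_iff, mem_image]
      exact ⟨j, hj, rfl⟩
    have hinj : Function.Injective (fun j : ℤ => (m : ℤ) * n - d * j) := by
      intro a b h
      have h4 : (d : ℤ) * a = d * b := by
        simp only at h
        linarith
      exact mul_left_cancel₀ hd0.ne' h4
    rw [h3, card_singleton, card_image_of_injective _ hinj, Int.card_Ico]
    have h5 : (((hiW d m c n - loW d m N c n).toNat : ℕ) : ℝ) =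
        ((hiW d m c n - loW d m N c n : ℤ) : ℝ) := by
      exact_mod_cast Int.toNat_of_nonneg (by omega : 0 ≤ hiW d m c n - loW d m N c n)
    rw [← h5]
    simp
  · intro n hn hnd
    have h1 : P.real {ω | ((m : ℤ) * n - ρ n ω) / d ∉ Ico (loW d m N c n) (hiW d m c n)} =
        (P.map (ρ n)).real {r : ℤ | ((m : ℤ) * n - r) / d ∉ Ico (loW d m N c n) (hiW d m c n)} := by
      rw [map_measureReal_apply (hmeas n) (Set.to_countable _).measurableSet]
      rfl
    rw [h1, hlaw n hn (fun h => hnd (Nat.mod_eq_zero_of_dvd h)), setW_eq hd, measureReal_def,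
      (uniformOn_eq_zero_iff (Finset.finite_toSet _)).2]
    · rfl
    · ext r
      simp only [Set.mem_inter_iff, Set.mem_empty_iff_false, iff_false, coe_image, Set.mem_image,
        coe_Ico, Set.mem_Ico, Set.mem_ofPred_eq, mem_Ico]
      rintro ⟨⟨q, hq, rfl⟩, h⟩
      rw [show (m : ℤ) * n - (m * n - d * q) = d * q by ring,
        Int.mul_ediv_cancel_left _ hd0.ne'] at h
      exact h hq

theorem admW_ae {Ω : Type u} [MeasurableSpace Ω] {d m : ℕ} (hd : 2 ≤ d) {N : ℕ → ℕ}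
    {c : ℕ → ℤ} {P : Measure Ω} [IsProbabilityMeasure P] {ρ : ℕ → Ω → ℤ} (hmeas : ∀ n, Measurable (ρ n))
    {x₀ : ℕ} (hN : ∀ n, x₀ ≤ n → 1 ≤ N n ∧ (d * N n) ^ 2 ≤ n ∧ (c n) ^ 2 ≤ n)
    (hlaw : ∀ n, x₀ ≤ n → ¬ d ∣ n →
      P.map (ρ n) = uniformOn {r : ℤ | (d : ℤ) ∣ m * n - r ∧ c n ≤ r ∧ r < c n + d * N n}) :
    ∀ᵐ ω ∂P, Adm d m (fun i => ρ i ω) x₀ := by
  unfold Adm
  rw [ae_all_iff]
  intro n
  by_cases hn : x₀ ≤ n
  swap
  · exact Eventually.of_forall fun ω h => absurd h hn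
  by_cases hnd : n % d = 0
  · exact Eventually.of_forall fun ω _ h => absurd hnd h
  have h1 : P {ω | ¬ ((d : ℤ) ∣ m * n - ρ n ω ∧ c n ≤ ρ n ω ∧ ρ n ω < c n + d * N n)} = 0 := by
    have h2 : P {ω | ¬ ((d : ℤ) ∣ m * n - ρ n ω ∧ c n ≤ ρ n ω ∧ ρ n ω < c n + d * N n)} =
        (P.map (ρ n)) ({r : ℤ | (d : ℤ) ∣ m * n - r ∧ c n ≤ r ∧ r < c n + d * N n})ᶜ := by
      rw [Measure.map_apply (hmeas n) (Set.to_countable _).measurableSet]
      rfl
    rw [h2, hlaw n hn (fun h => hnd (Nat.mod_eq_zero_of_dvd h)), setW_eq hd,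
      (uniformOn_eq_zero_iff (Finset.finite_toSet _)).2]
    simp
  have h3 : ∀ᵐ ω ∂P, ((d : ℤ) ∣ m * n - ρ n ω ∧ c n ≤ ρ n ω ∧ ρ n ω < c n + d * N n) := by
    rw [ae_iff]
    exact h1
  filter_upwards [h3] with ω hω _ _
  refine ⟨hω.1, ?_⟩
  obtain ⟨_, h4, h5⟩ := hN n hn
  have h4z : ((d : ℤ) * N n) ^ 2 ≤ n := by exact_mod_cast h4
  obtain ⟨_, h6, h7⟩ := hω
  have h8 : (ρ n ω - c n) ^ 2 ≤ ((d : ℤ) * N n) ^ 2 := sq_le_sq' (by
    have : (0 : ℤ) ≤ (d : ℤ) * N n := by positivity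
    linarith) (by linarith)
  nlinarith [sq_nonneg (ρ n ω - 2 * c n)]

theorem mainW {d m : ℕ} (hd : 2 ≤ d) (hm : 1 ≤ m) (hco : Nat.Coprime m d) {δ : ℝ} (hδ : 0 < δ) :
    ∃ C : ℝ, 0 < C ∧ ∀ {Ω : Type u} [MeasurableSpace Ω] (P : Measure Ω) [IsProbabilityMeasure P]
      (N : ℕ → ℕ) (c : ℕ → ℤ) (ρ : ℕ → Ω → ℤ),
      (∀ᶠ n : ℕ in atTop, 1 ≤ N n ∧ Contracting d m (N n) δ ∧ (d * N n) ^ 2 ≤ n ∧ (c n) ^ 2 ≤ n) →
      (∀ n, Measurable (ρ n)) → iIndepFun ρ P →
      (∀ᶠ n : ℕ in atTop, ¬ d ∣ n →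
        P.map (ρ n) = uniformOn {r : ℤ | (d : ℤ) ∣ m * n - r ∧ c n ≤ r ∧ r < c n + d * N n}) →
      ∀ᵐ ω ∂P, ∀ᶠ n : ℕ in atTop, ¬ d ∣ n → ∃ k : ℕ, 1 ≤ k ∧ (k : ℝ) ≤ C * Real.log n ∧
        Def d m (fun i => ρ i ω) n k ∧ (H d m fun i => ρ i ω)^[k] n < n := by
  have hdr : (2 : ℝ) ≤ d := by exact_mod_cast hd
  have hd0 : (0 : ℝ) < d := by linarith
  have hm0 : (0 : ℝ) < m := by exact_mod_cast hm
  obtain ⟨C, hC0, hC⟩ := exists_C2.{u} hd hm hδ
  refine ⟨C + 1, by linarith, ?_⟩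
  intro Ω _ P _ N c ρ hNc hmeas hind hlaw
  obtain ⟨x₀, hx₀⟩ := eventually_atTop.1 ((hNc.and hlaw).and (eventually_ge_atTop 5))
  have hx5 : 5 ≤ x₀ := (hx₀ x₀ le_rfl).2
  have hN : ∀ n, x₀ ≤ n → 1 ≤ N n ∧ (d * N n) ^ 2 ≤ n ∧ (c n) ^ 2 ≤ n := fun n hn =>
    ⟨(hx₀ n hn).1.1.1, (hx₀ n hn).1.1.2.2.1, (hx₀ n hn).1.1.2.2.2⟩
  have hcon : ∀ n, x₀ ≤ n → Contracting d m (N n) δ := fun n hn => (hx₀ n hn).1.1.2.1
  have hlaw' : ∀ n, x₀ ≤ n → ¬ d ∣ n →
      P.map (ρ n) = uniformOn {r : ℤ | (d : ℤ) ∣ m * n - r ∧ c n ≤ r ∧ r < c n + d * N n} :=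
    fun n hn => (hx₀ n hn).1.2
  have hE := envW_of hd hm hmeas hind hx5 hN hlaw'
  have hdz : (0 : ℤ) < d := by exact_mod_cast (by omega : 0 < d)
  have hD : ∀ᶠ n : ℕ in atTop, loW d m N c n < hiW d m c n ∧
      Contracting d m (hiW d m c n - loW d m N c n).toNat δ := by
    filter_upwards [eventually_ge_atTop x₀] with n hn
    have h1 : hiW d m c n - loW d m N c n = N n := by
      unfold loW hiW
      ring
    have h2 := (hN n hn).1
    refine ⟨by omega, ?_⟩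
    rw [h1]
    exact hcon n hn
  have hlo : ∀ᶠ n : ℕ in atTop, 1 ≤ loW d m N c n := by
    filter_upwards [eventually_ge_atTop x₀] with n hn
    obtain ⟨h1, h2, h3⟩ := hN n hn
    exact loW_pos hd hm (by omega) h2 h3
  have hH : Tendsto (fun n : ℕ => ((hiW d m c n : ℤ) : ℝ) / n) atTop (𝓝 ((m : ℝ) / d)) := by
    have l1 : Tendsto (fun n : ℕ => (2 : ℝ) * (1 / Real.sqrt n) + d * (1 / n)) atTop (𝓝 0) := by
      have h1 : Tendsto (fun n : ℕ => 1 / Real.sqrt n) atTop (𝓝 0) :=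
        tendsto_const_nhds.div_atTop (Real.tendsto_sqrt_atTop.comp tendsto_natCast_atTop_atTop)
      have h2 : Tendsto (fun n : ℕ => (1 : ℝ) / n) atTop (𝓝 0) :=
        tendsto_const_div_atTop_nhds_zero_nat 1
      have := (h1.const_mul 2).add (h2.const_mul (d : ℝ))
      simpa using this
    rw [tendsto_iff_norm_sub_tendsto_zero]
    refine squeeze_zero' (Eventually.of_forall fun n => norm_nonneg _) ?_ l1
    filter_upwards [eventually_ge_atTop x₀] with n hn
    obtain ⟨_, h2, h3⟩ := hN n hn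
    have hn0 : (0 : ℝ) < n := by exact_mod_cast (by omega : 0 < n)
    set s := Real.sqrt n with hs
    have hs2 : s * s = n := Real.mul_self_sqrt hn0.le
    have hs0 : 0 < s := Real.sqrt_pos.2 hn0
    have h3r : |((c n : ℤ) : ℝ)| ≤ s := by
      apply Real.abs_le_sqrt
      exact_mod_cast h3
    obtain ⟨h4, h5⟩ := abs_le.1 h3r
    have h6 := Int.lt_mul_ediv_self_add (x := (m : ℤ) * n - c n) hdz
    have h7 := Int.mul_ediv_self_le (x := (m : ℤ) * n - c n) (k := (d : ℤ)) hdz.ne'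
    have h8 : (d : ℤ) * hiW d m c n = d * ((m * n - c n) / d) + d := by
      unfold hiW
      ring
    have h9 : ((m : ℝ) * n - c n) < d * ((hiW d m c n : ℤ) : ℝ) := by
      have : ((m : ℤ) * n - c n) < d * hiW d m c n := by
        rw [h8]
        exact h6
      exact_mod_cast this
    have h10 : (d : ℝ) * ((hiW d m c n : ℤ) : ℝ) ≤ ((m : ℝ) * n - c n) + d := by
      have : (d : ℤ) * hiW d m c n ≤ ((m : ℤ) * n - c n) + d := by
        rw [h8]
        linarith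
      exact_mod_cast this
    rw [Real.norm_eq_abs]
    have h11 : ((hiW d m c n : ℤ) : ℝ) / n - (m : ℝ) / d =
        (d * ((hiW d m c n : ℤ) : ℝ) - m * n) / (d * n) := by
      field_simp
    rw [h11, abs_div, abs_of_pos (show (0 : ℝ) < d * n by positivity), div_le_iff₀ (by positivity)]
    have h12 : |(d : ℝ) * ((hiW d m c n : ℤ) : ℝ) - m * n| ≤ 2 * s + d := by
      rw [abs_le]
      constructor <;> linarith
    refine h12.trans ?_
    have h13 : (2 * (1 / s) + d * (1 / n)) * (d * n) = d * (2 * s + d) := by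
      have : (n : ℝ) = s * s := hs2.symm
      rw [this]
      field_simp
    rw [h13]
    nlinarith
  obtain ⟨N₀, hN₀⟩ := hC hE hH hD hlo
  filter_upwards [hN₀, admW_ae (m := m) hd hmeas hN hlaw'] with ω hω hadm
  exact descend hd hm hco hadm hC0.le hω

/-! ### when the drift is negative -/

theorem contracting_of {d m N : ℕ} (hd : 2 ≤ d) (hm : 1 ≤ m) (hN : 1 ≤ N)
    (h : m ^ ((d - 1) * N) < d ^ (d * N - (Nat.digits d N).sum)) :
    ∃ δ : ℝ, 0 < δ ∧ Contracting d m N δ := by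
  have hm0 : (0 : ℝ) < m := by exact_mod_cast hm
  have hd0 : (0 : ℝ) < d := by exact_mod_cast (by omega : 0 < d)
  have hN0 : (0 : ℝ) < N := by exact_mod_cast hN
  have hr : (m : ℝ) ^ ((d - 1) * N) < (d : ℝ) ^ (d * N - (Nat.digits d N).sum) := by exact_mod_cast h
  have hl := Real.log_lt_log (by positivity) hr
  rw [Real.log_pow, Real.log_pow] at hl
  have hs : (Nat.digits d N).sum ≤ N := by
    have := VV_digits hd N
    omega
  have hs2 : (Nat.digits d N).sum ≤ d * N := hs.trans (Nat.le_mul_of_pos_left N (by omega))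
  unfold Contracting
  generalize (Nat.digits d N).sum = D at hl hs hs2 ⊢
  have e1 : (((d - 1) * N : ℕ) : ℝ) = ((d : ℝ) - 1) * N := by
    rw [Nat.cast_mul, Nat.cast_sub (by omega)]
    push_cast
    ring
  have e2 : ((d * N - D : ℕ) : ℝ) = (d : ℝ) * N - D := by
    rw [Nat.cast_sub hs2]
    push_cast
    ring
  rw [e1, e2] at hl
  refine ⟨(1 - (D : ℝ) / N) * Real.log d - ((d : ℝ) - 1) * (Real.log m - Real.log d), ?_, ?_⟩
  · have e3 : (1 - (D : ℝ) / N) * Real.log d - ((d : ℝ) - 1) * (Real.log m - Real.log d) =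
        (((d : ℝ) * N - D) * Real.log d - ((d : ℝ) - 1) * N * Real.log m) / N := by
      field_simp
      ring
    rw [e3]
    exact div_pos (by linarith) hN0
  · linarith

theorem digits_sum_le {d : ℕ} (hd : 2 ≤ d) {N : ℕ} (hN : 1 ≤ N) :
    ((Nat.digits d N).sum : ℝ) ≤ (d : ℝ) * (2 * Real.log N + 1) := by
  have h1 : (Nat.digits d N).sum ≤ (Nat.digits d N).length * d := by
    have := List.sum_le_card_nsmul (Nat.digits d N) d (fun x hx => (Nat.digits_lt_base (by omega) hx).le)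
    simpa using this
  have h2 : (Nat.digits d N).length = Nat.log d N + 1 := Nat.length_digits d N (by omega) (by omega)
  have hN0 : (0 : ℝ) < N := by exact_mod_cast hN
  have hln : 0 ≤ Real.log N := Real.log_nonneg (by exact_mod_cast hN)
  have h3 : (Nat.log d N : ℝ) ≤ 2 * Real.log N := by
    have h4 : d ^ Nat.log d N ≤ N := Nat.pow_log_le_self d (by omega)
    have h5 : (2 : ℝ) ^ Nat.log d N ≤ N := by
      have h6 : 2 ^ Nat.log d N ≤ d ^ Nat.log d N := Nat.pow_le_pow_left hd _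
      exact_mod_cast h6.trans h4
    have h6 := Real.log_le_log (by positivity) h5
    rw [Real.log_pow] at h6
    have h7 := Real.log_two_gt_d9
    have h8 : (0 : ℝ) ≤ Nat.log d N := by positivity
    nlinarith
  rw [h2] at h1
  have h9 : (((Nat.digits d N).sum : ℕ) : ℝ) ≤ (((Nat.log d N + 1) * d : ℕ) : ℝ) := Nat.cast_le.2 h1
  have hd0 : (0 : ℝ) ≤ d := by positivity
  have h10 : (((Nat.log d N + 1) * d : ℕ) : ℝ) = ((Nat.log d N : ℝ) + 1) * d := by
    rw [Nat.cast_mul, Nat.cast_add, Nat.cast_one]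
  rw [h10] at h9
  nlinarith

theorem contracting_large {d m : ℕ} (hd : 2 ≤ d) (hm : 1 ≤ m) (hco : Nat.Coprime m d)
    (hmd : (m : ℝ) ≤ (d : ℝ) ^ ((d : ℝ) / ((d : ℝ) - 1))) :
    ∃ δ : ℝ, 0 < δ ∧ ∃ N₁ : ℕ, ∀ N : ℕ, N₁ ≤ N → Contracting d m N δ := by
  have hdr : (2 : ℝ) ≤ d := by exact_mod_cast hd
  have hd0 : (0 : ℝ) < d := by linarith
  have hm0 : (0 : ℝ) < m := by exact_mod_cast hm
  have hl : 0 < Real.log d := Real.log_pos (by linarith)
  have hlt : ((d : ℝ) - 1) * Real.log m < d * Real.log d := by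
    have h1 : Real.log m ≤ (d : ℝ) / (d - 1) * Real.log d := by
      rw [← Real.log_rpow hd0]
      exact Real.log_le_log hm0 hmd
    have hd1 : (0 : ℝ) < d - 1 := by linarith
    have h2 : ((d : ℝ) - 1) * Real.log m ≤ d * Real.log d := by
      calc ((d : ℝ) - 1) * Real.log m ≤ (d - 1) * ((d : ℝ) / (d - 1) * Real.log d) :=
            mul_le_mul_of_nonneg_left h1 hd1.le
        _ = d * Real.log d := by field_simp
    refine lt_of_le_of_ne h2 ?_
    intro h3
    have h4 := log_ne hd hm hco d (d - 1) (by omega)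
    apply h4
    rw [Nat.cast_sub (by omega)]
    push_cast
    linarith
  set g : ℝ := d * Real.log d - ((d : ℝ) - 1) * Real.log m with hg
  have hg0 : 0 < g := by linarith
  have htend : Tendsto (fun x : ℝ => 2 * (Real.log x / x) + 1 / x) atTop (𝓝 0) := by
    have h1 : Tendsto (fun x : ℝ => Real.log x / x) atTop (𝓝 0) := by
      have := Real.tendsto_pow_log_div_mul_add_atTop 1 0 1 one_ne_zero
      simpa using this
    have h2 : Tendsto (fun x : ℝ => 1 / x) atTop (𝓝 0) := tendsto_const_nhds.div_atTop tendsto_id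
    have := (h1.const_mul 2).add h2
    simpa using this
  have hev := (htend.comp tendsto_natCast_atTop_atTop).eventually
    (gt_mem_nhds (show 0 < g / 2 / (d * Real.log d) by positivity))
  obtain ⟨N₁, hN₁⟩ := eventually_atTop.1 (hev.and (eventually_ge_atTop 1))
  refine ⟨g / 2, by positivity, N₁, fun N hN => ?_⟩
  obtain ⟨h1, h2⟩ := hN₁ N hN
  have hN0 : (0 : ℝ) < N := by exact_mod_cast h2
  have h3 := digits_sum_le hd h2
  simp only [Function.comp] at h1
  rw [lt_div_iff₀ (by positivity)] at h1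
  unfold Contracting
  have h4 : ((Nat.digits d N).sum : ℝ) / N ≤ d * (2 * (Real.log N / N) + 1 / N) := by
    rw [div_le_iff₀ hN0]
    refine h3.trans (le_of_eq ?_)
    field_simp
  have h5 : ((Nat.digits d N).sum : ℝ) / N * Real.log d ≤ g / 2 := by
    refine (mul_le_mul_of_nonneg_right h4 hl.le).trans ?_
    nlinarith
  nlinarith

theorem contracting_234 : Contracting 2 3 4 (1 / 10) := by
  unfold Contracting
  have h1 : (Nat.digits 2 4).sum = 1 := by norm_num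
  rw [h1]
  have h2 := Real.log_two_gt_d9
  have h3 := Real.log_three_lt_d9
  push_cast
  norm_num at h2 h3 ⊢
  linarith

end Pool.Agent.W2helper40.MO
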