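import Pool.Agent.W2helper40.MO.Esc

set_option autoImplicit false

/-! The Lyapunov function for the maps with general `d` and `m`. -/

namespace Pool.Agent.W2helper40.MO

open MeasureTheory ProbabilityTheory Finset Filter Topology

/-- `ρ` to the number of times `n` can be divided by `d` -/
noncomputable def wt (d : ℕ) (ρ : ℝ) (n : ℕ) : ℝ :=
  if h : 2 ≤ d ∧ 0 < n ∧ n % d = 0 then ρ * wt d ρ (n / d) else 1
termination_by n
decreasing_by exact Nat.div_lt_self h.2.1 (by omega)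

theorem wt_of_not {d : ℕ} {ρ : ℝ} {n : ℕ} (h : n % d ≠ 0) : wt d ρ n = 1 := by
  rw [wt, dif_neg (by tauto)]

theorem wt_of_dvd {d : ℕ} (hd : 2 ≤ d) {ρ : ℝ} {n : ℕ} (hn : 0 < n) (h : n % d = 0) :
    wt d ρ n = ρ * wt d ρ (n / d) := by
  rw [wt, dif_pos ⟨hd, hn, h⟩]

theorem wt_nonneg {d : ℕ} {ρ : ℝ} (h0 : 0 ≤ ρ) (n : ℕ) : 0 ≤ wt d ρ n := by
  induction n using Nat.strong_induction_on with
  | _ n ih =>
    rw [wt]
    split_ifs with h
    · exact mul_nonneg h0 (ih _ (Nat.div_lt_self h.2.1 (by omega)))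
    · exact zero_le_one

theorem wt_le_one {d : ℕ} {ρ : ℝ} (h0 : 0 ≤ ρ) (h1 : ρ ≤ 1) (n : ℕ) : wt d ρ n ≤ 1 := by
  induction n using Nat.strong_induction_on with
  | _ n ih =>
    rw [wt]
    split_ifs with h
    · exact mul_le_one₀ h1 (wt_nonneg h0 _) (ih _ (Nat.div_lt_self h.2.1 (by omega)))
    · exact le_rfl

/-- `∑_{1 ≤ m ≤ X} wt m` -/
noncomputable def GG (d : ℕ) (ρ : ℝ) (X : ℕ) : ℝ := ∑ m ∈ range X, wt d ρ (m + 1)

theorem GG_rec {d : ℕ} (hd : 2 ≤ d) (ρ : ℝ) (X : ℕ) :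
    GG d ρ X = ((X : ℝ) - ((X / d : ℕ) : ℝ)) + ρ * GG d ρ (X / d) := by
  induction X with
  | zero => simp [GG]
  | succ X ih =>
    have e1 : GG d ρ (X + 1) = GG d ρ X + wt d ρ (X + 1) := by
      unfold GG
      rw [sum_range_succ]
    rw [e1, ih]
    by_cases h : d ∣ X + 1
    · have h2 : (X + 1) / d = X / d + 1 := by
        rw [Nat.succ_div, if_pos h]
      have e2 : GG d ρ (X / d + 1) = GG d ρ (X / d) + wt d ρ (X / d + 1) := by
        unfold GG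
        rw [sum_range_succ]
      rw [wt_of_dvd hd (by omega) (Nat.mod_eq_zero_of_dvd h), h2, e2]
      push_cast
      ring
    · have h2 : (X + 1) / d = X / d := by
        rw [Nat.succ_div, if_neg h, add_zero]
      rw [wt_of_not (fun h0 => h (Nat.dvd_of_mod_eq_zero h0)), h2]
      push_cast
      ring

theorem GG_sub {d : ℕ} (hd : 2 ≤ d) {ρ : ℝ} (h0 : 0 ≤ ρ) (h1 : ρ ≤ 1) (b : ℕ) :
    ∀ a : ℕ, a ≤ b → GG d ρ b - GG d ρ a ≤ ((d : ℝ) - 1) * ((b : ℝ) - a + 1) / (d - ρ) := by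
  have hdr : (2 : ℝ) ≤ d := by exact_mod_cast hd
  have h2 : 0 < (d : ℝ) - ρ := by linarith
  induction b using Nat.strong_induction_on with
  | _ b ih =>
    intro a hab
    have habr : (a : ℝ) ≤ b := by exact_mod_cast hab
    rcases Nat.eq_zero_or_pos b with hb | hb
    · have ha : a = 0 := by omega
      rw [hb, ha]
      simp only [sub_self]
      apply div_nonneg _ h2.le
      nlinarith
    · have hI := ih (b / d) (Nat.div_lt_self hb (by omega)) (a / d) (Nat.div_le_div_right hab)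
      rw [GG_rec hd ρ b, GG_rec hd ρ a]
      rw [le_div_iff₀ h2] at hI ⊢
      have hb1 : (b : ℝ) = d * ((b / d : ℕ) : ℝ) + ((b % d : ℕ) : ℝ) := by
        exact_mod_cast (Nat.div_add_mod b d).symm
      have ha1 : (a : ℝ) = d * ((a / d : ℕ) : ℝ) + ((a % d : ℕ) : ℝ) := by
        exact_mod_cast (Nat.div_add_mod a d).symm
      have hbm : ((b % d : ℕ) : ℝ) ≤ d - 1 := by
        have : b % d + 1 ≤ d := Nat.mod_lt _ (by omega)
        have : ((b % d : ℕ) : ℝ) + 1 ≤ d := by exact_mod_cast this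
        linarith
      have ham : (0 : ℝ) ≤ ((a % d : ℕ) : ℝ) := by positivity
      set B : ℝ := ((b / d : ℕ) : ℝ) with hB
      set A : ℝ := ((a / d : ℕ) : ℝ) with hA
      set GB := GG d ρ (b / d)
      set GA := GG d ρ (a / d)
      have e1 : (b : ℝ) - a - d * (B - A) ≤ d - 1 := by
        rw [hb1, ha1]
        linarith
      have e2 := mul_le_mul_of_nonneg_left hI h0
      have e3 := mul_le_mul_of_nonneg_left e1 (show 0 ≤ 1 - ρ by linarith)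
      nlinarith

theorem sum_wt {d : ℕ} (hd : 2 ≤ d) {ρ : ℝ} (h0 : 0 ≤ ρ) (h1 : ρ ≤ 1) {a b : ℕ} (ha : 1 ≤ a)
    (hab : a ≤ b) :
    ∑ m ∈ Ico a b, wt d ρ m ≤ ((d : ℝ) - 1) * ((b : ℝ) - a + 1) / (d - ρ) := by
  obtain ⟨a, rfl⟩ : ∃ a', a = a' + 1 := ⟨a - 1, by omega⟩
  obtain ⟨b, rfl⟩ : ∃ b', b = b' + 1 := ⟨b - 1, by omega⟩
  rw [← Finset.sum_Ico_add' (fun m => wt d ρ m) a b 1, Finset.sum_Ico_eq_sub _ (by omega)]
  have := GG_sub hd h0 h1 b a (by omega)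
  unfold GG at this
  refine this.trans_eq ?_
  push_cast
  ring

/-- the Lyapunov function -/
noncomputable def hh (d : ℕ) (t ρ : ℝ) (n : ℕ) : ℝ := (n : ℝ) ^ t * wt d ρ n

theorem hh_nonneg {d : ℕ} {t ρ : ℝ} (h0 : 0 ≤ ρ) (n : ℕ) : 0 ≤ hh d t ρ n :=
  mul_nonneg (by positivity) (wt_nonneg h0 n)

theorem hh_dvd {d : ℕ} (hd : 2 ≤ d) {t ρ : ℝ} (hρ : ρ ≠ 0) {n : ℕ} (hn : 1 ≤ n) (h : n % d = 0) :
    hh d t ρ (n / d) = ((d : ℝ) ^ t * ρ)⁻¹ * hh d t ρ n := by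
  have hd0 : (0 : ℝ) < d := by exact_mod_cast (by omega : 0 < d)
  have h2 : (0 : ℝ) < (d : ℝ) ^ t := by positivity
  unfold hh
  rw [wt_of_dvd hd hn h]
  have h3 : (n : ℝ) = d * ((n / d : ℕ) : ℝ) := by
    exact_mod_cast (Nat.mul_div_cancel' (Nat.dvd_of_mod_eq_zero h)).symm
  rw [h3, Real.mul_rpow hd0.le (by positivity)]
  have h4 : d * (n / d) / d = n / d := Nat.mul_div_cancel_left _ (by omega)
  field_simp

theorem hh_le {d : ℕ} {t ρ : ℝ} (h0 : 0 ≤ ρ) (h1 : ρ ≤ 1) (n : ℕ) : hh d t ρ n ≤ (n : ℝ) ^ t := by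
  unfold hh
  exact mul_le_of_le_one_right (by positivity) (wt_le_one h0 h1 n)

theorem hh_ge {d : ℕ} (hd : 2 ≤ d) {t ρ : ℝ} (ht : 0 ≤ t) (h0 : 0 < ρ)
    (h2 : 1 ≤ (d : ℝ) ^ t * ρ) (n : ℕ) (hn : 1 ≤ n) : 1 ≤ hh d t ρ n := by
  induction n using Nat.strong_induction_on with
  | _ n ih =>
    by_cases he : n % d = 0
    · have hnd : 1 ≤ n / d := Nat.div_pos (Nat.le_of_dvd hn (Nat.dvd_of_mod_eq_zero he)) (by omega)
      have h3 := ih (n / d) (Nat.div_lt_self hn (by omega)) hnd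
      rw [hh_dvd hd h0.ne' hn he] at h3
      have h4 : ((d : ℝ) ^ t * ρ)⁻¹ ≤ 1 := inv_le_one_of_one_le₀ h2
      calc (1 : ℝ) ≤ ((d : ℝ) ^ t * ρ)⁻¹ * hh d t ρ n := h3
        _ ≤ 1 * hh d t ρ n := mul_le_mul_of_nonneg_right h4 (hh_nonneg h0.le n)
        _ = hh d t ρ n := one_mul _
    · unfold hh
      rw [wt_of_not he, mul_one]
      exact Real.one_le_rpow (by exact_mod_cast hn) ht

theorem toNat_sum {lo hi : ℤ} (hlo : 1 ≤ lo) (f : ℕ → ℝ) :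
    ∑ j ∈ Ico lo hi, f j.toNat = ∑ m ∈ Ico lo.toNat hi.toNat, f m := by
  refine Finset.sum_bij' (fun j _ => j.toNat) (fun m _ => (m : ℤ)) ?_ ?_ ?_ ?_ ?_
  · intro j hj
    rw [mem_Ico] at hj ⊢
    omega
  · intro m hm
    rw [mem_Ico] at hm ⊢
    omega
  · intro j hj
    rw [mem_Ico] at hj
    omega
  · intro m hm
    simp
  · intro j hj
    rfl

theorem step {d m : ℕ} (hd : 2 ≤ d) (hm : 1 ≤ m) {lo hi : ℕ → ℤ}
    (hH : Tendsto (fun n : ℕ => ((hi n : ℤ) : ℝ) / n) atTop (𝓝 ((m : ℝ) / d)))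
    (hN : Tendsto (fun n : ℕ => ((hi n - lo n : ℤ) : ℝ)) atTop atTop)
    (hlo : ∀ᶠ n : ℕ in atTop, 1 ≤ lo n) {t ρ : ℝ} (ht : 0 ≤ t) (h0 : 0 ≤ ρ) (h1 : ρ ≤ 1)
    {ε : ℝ} (hε : 0 < ε) : ∀ᶠ n : ℕ in atTop, n % d ≠ 0 →
      ∑ j ∈ Ico (lo n) (hi n), hh d t ρ j.toNat ≤
        ((hi n - lo n : ℤ) : ℝ) * ((1 + ε) * (((m : ℝ) / d) ^ t * (((d : ℝ) - 1) / (d - ρ))) *
          hh d t ρ n) := by
  have hdr : (2 : ℝ) ≤ d := by exact_mod_cast hd
  have hmr : (1 : ℝ) ≤ m := by exact_mod_cast hm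
  have h2 : 0 < (d : ℝ) - ρ := by linarith
  have hmd : 0 < (m : ℝ) / d := by positivity
  have lc2 : Tendsto (fun n : ℕ => (((hi n : ℤ) : ℝ) / n) ^ t) atTop (𝓝 (((m : ℝ) / d) ^ t)) :=
    hH.rpow_const (Or.inl hmd.ne')
  have lj : Tendsto (fun n : ℕ => 1 + 1 / ((hi n - lo n : ℤ) : ℝ)) atTop (𝓝 1) := by
    have h5 := (tendsto_const_nhds (x := (1 : ℝ))).add
      (tendsto_const_nhds (x := (1 : ℝ)) |>.div_atTop hN)
    simpa using h5
  have l2 := lc2.mul lj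
  rw [mul_one] at l2
  have h32 : (0 : ℝ) < ((m : ℝ) / d) ^ t := by positivity
  have hev := l2.eventually (gt_mem_nhds
    (show ((m : ℝ) / d) ^ t < (1 + ε) * ((m : ℝ) / d) ^ t by nlinarith))
  filter_upwards [hev, eventually_ge_atTop 1, hlo, hN.eventually_ge_atTop 1] with n hn hn1 hlo1 hN1 ho
  have hn0 : (0 : ℝ) < n := by exact_mod_cast hn1
  have hlh : lo n < hi n := by
    have : (1 : ℤ) ≤ hi n - lo n := by exact_mod_cast hN1
    omega
  rw [toNat_sum hlo1]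
  have hhi0 : (0 : ℝ) ≤ ((hi n : ℤ) : ℝ) := by exact_mod_cast (by omega : 0 ≤ hi n)
  have e1 : ∀ j ∈ Ico (lo n).toNat (hi n).toNat, hh d t ρ j ≤ ((hi n : ℤ) : ℝ) ^ t * wt d ρ j := by
    intro j hj
    rw [mem_Ico] at hj
    unfold hh
    apply mul_le_mul_of_nonneg_right _ (wt_nonneg h0 j)
    apply Real.rpow_le_rpow (by positivity) _ ht
    have : (j : ℤ) ≤ hi n := by omega
    exact_mod_cast this
  refine (Finset.sum_le_sum e1).trans ?_
  rw [← Finset.mul_sum]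
  have h3 := sum_wt hd h0 h1 (show 1 ≤ (lo n).toNat by omega)
    (show (lo n).toNat ≤ (hi n).toNat by omega)
  have h4 : (((hi n).toNat : ℝ) - ((lo n).toNat : ℝ) + 1) =
      ((hi n - lo n : ℤ) : ℝ) * (1 + 1 / ((hi n - lo n : ℤ) : ℝ)) := by
    have e2 : (((hi n).toNat : ℕ) : ℝ) = ((hi n : ℤ) : ℝ) := by
      exact_mod_cast Int.toNat_of_nonneg (by omega : 0 ≤ hi n)
    have e3 : (((lo n).toNat : ℕ) : ℝ) = ((lo n : ℤ) : ℝ) := by
      exact_mod_cast Int.toNat_of_nonneg (by omega : 0 ≤ lo n)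
    rw [e2, e3, mul_add, mul_one, mul_one_div_cancel (by positivity)]
    push_cast
    ring
  rw [h4] at h3
  have h5 : ((hi n : ℤ) : ℝ) ^ t = (((hi n : ℤ) : ℝ) / n) ^ t * (n : ℝ) ^ t := by
    rw [← Real.mul_rpow (by positivity) hn0.le]
    congr 1
    field_simp
  have h6 : hh d t ρ n = (n : ℝ) ^ t := by
    unfold hh
    rw [wt_of_not ho, mul_one]
  rw [h6]
  have hnt : 0 < (n : ℝ) ^ t := by positivity
  have hd1 : 0 ≤ (d : ℝ) - 1 := by linarith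
  calc ((hi n : ℤ) : ℝ) ^ t * ∑ j ∈ Ico (lo n).toNat (hi n).toNat, wt d ρ j
      ≤ ((hi n : ℤ) : ℝ) ^ t * (((d : ℝ) - 1) *
        (((hi n - lo n : ℤ) : ℝ) * (1 + 1 / ((hi n - lo n : ℤ) : ℝ))) / (d - ρ)) :=
        mul_le_mul_of_nonneg_left h3 (by positivity)
    _ = ((((hi n : ℤ) : ℝ) / n) ^ t * (1 + 1 / ((hi n - lo n : ℤ) : ℝ))) *
        (((hi n - lo n : ℤ) : ℝ) * (n : ℝ) ^ t * (((d : ℝ) - 1) / (d - ρ))) := by
        rw [h5]
        ring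
    _ ≤ ((1 + ε) * ((m : ℝ) / d) ^ t) *
        (((hi n - lo n : ℤ) : ℝ) * (n : ℝ) ^ t * (((d : ℝ) - 1) / (d - ρ))) :=
        mul_le_mul_of_nonneg_right hn.le (by positivity)
    _ = _ := by ring

/-- the moment generating function -/
noncomputable def MM (d m : ℕ) (t : ℝ) : ℝ := (1 + ((d : ℝ) - 1) * (m : ℝ) ^ t) / (d * (d : ℝ) ^ t)

theorem MM_pos {d m : ℕ} (hd : 2 ≤ d) (hm : 1 ≤ m) (t : ℝ) : 0 < MM d m t := by
  have hdr : (2 : ℝ) ≤ d := by exact_mod_cast hd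
  have hmr : (1 : ℝ) ≤ m := by exact_mod_cast hm
  have h1 : 0 ≤ (d : ℝ) - 1 := by linarith
  unfold MM
  positivity

/-- the parameter `ρ` -/
noncomputable def rho (d m : ℕ) (t : ℝ) : ℝ := (d : ℝ) / (1 + ((d : ℝ) - 1) * (m : ℝ) ^ t)

theorem rho_spec {d m : ℕ} (hd : 2 ≤ d) (hm : 1 ≤ m) {t : ℝ} (ht : 0 ≤ t) :
    0 < rho d m t ∧ rho d m t ≤ 1 ∧ ((d : ℝ) ^ t * rho d m t)⁻¹ = MM d m t ∧
      ((m : ℝ) / d) ^ t * (((d : ℝ) - 1) / (d - rho d m t)) = MM d m t := by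
  have hdr : (2 : ℝ) ≤ d := by exact_mod_cast hd
  have hmr : (1 : ℝ) ≤ m := by exact_mod_cast hm
  have h1 : 0 < (d : ℝ) - 1 := by linarith
  have hd0 : (0 : ℝ) < d := by linarith
  have hmt : 1 ≤ (m : ℝ) ^ t := Real.one_le_rpow hmr ht
  have hdt : 0 < (d : ℝ) ^ t := by positivity
  have h2 : (d : ℝ) ≤ 1 + ((d : ℝ) - 1) * (m : ℝ) ^ t := by nlinarith
  have h3 : 0 < 1 + ((d : ℝ) - 1) * (m : ℝ) ^ t := by linarith
  refine ⟨by unfold rho; positivity, by unfold rho; exact (div_le_one h3).2 h2, ?_, ?_⟩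
  · unfold rho MM
    field_simp
  · have h4 : (d : ℝ) - rho d m t = d * (((d : ℝ) - 1) * (m : ℝ) ^ t) /
        (1 + ((d : ℝ) - 1) * (m : ℝ) ^ t) := by
      unfold rho
      field_simp
      ring
    rw [h4, Real.div_rpow (by positivity) hd0.le]
    unfold MM
    field_simp

theorem exists_contract {d m : ℕ} (hd : 2 ≤ d) (hm : 1 ≤ m)
    (hlt : ((d : ℝ) - 1) * Real.log m < d * Real.log d) :
    ∃ t : ℝ, 0 < t ∧ MM d m t < 1 := by
  have hdr : (2 : ℝ) ≤ d := by exact_mod_cast hd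
  have hmr : (1 : ℝ) ≤ m := by exact_mod_cast hm
  have hd0 : (0 : ℝ) < d := by linarith
  have hm0 : (0 : ℝ) < m := by linarith
  have hder : HasDerivAt (MM d m) ((((d : ℝ) - 1) * Real.log m - d * Real.log d) / d) 0 := by
    have h1 : HasDerivAt (fun t : ℝ => (m : ℝ) ^ t) (Real.log m) 0 := by
      have := (hasDerivAt_id (0 : ℝ)).const_rpow hm0
      simpa using this
    have h2 : HasDerivAt (fun t : ℝ => (d : ℝ) ^ t) (Real.log d) 0 := by
      have := (hasDerivAt_id (0 : ℝ)).const_rpow hd0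
      simpa using this
    have h3 : HasDerivAt (fun t : ℝ => 1 + ((d : ℝ) - 1) * (m : ℝ) ^ t)
        (((d : ℝ) - 1) * Real.log m) 0 := (h1.const_mul _).const_add _
    have h4 : HasDerivAt (fun t : ℝ => (d : ℝ) * (d : ℝ) ^ t) (d * Real.log d) 0 := h2.const_mul _
    have h5 := h3.div h4 (by simp; omega)
    have e : MM d m = fun t : ℝ => (1 + ((d : ℝ) - 1) * (m : ℝ) ^ t) / (d * (d : ℝ) ^ t) := rfl
    rw [e]
    refine h5.congr_deriv ?_
    simp only [Real.rpow_zero, mul_one]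
    field_simp
    ring
  have hneg : (((d : ℝ) - 1) * Real.log m - d * Real.log d) / d < 0 :=
    div_neg_of_neg_of_pos (by linarith) hd0
  have hslope := hder.tendsto_slope_zero_right
  have hev := hslope.eventually (gt_mem_nhds hneg)
  obtain ⟨t, ht1, ht2⟩ := (hev.and self_mem_nhdsWithin).exists
  have ht0 : 0 < t := ht2
  refine ⟨t, ht0, ?_⟩
  have h0 : MM d m 0 = 1 := by
    unfold MM
    simp only [Real.rpow_zero, mul_one]
    field_simp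
    ring
  rw [zero_add, h0, smul_eq_mul] at ht1
  by_contra hc
  push Not at hc
  have : 0 ≤ t⁻¹ * (MM d m t - 1) := mul_nonneg (by positivity) (by linarith)
  linarith

end Pool.Agent.W2helper40.MO
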