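import Pool.Agent.W2helper40.MO.Up

set_option autoImplicit false

/-! The Lyapunov function for windows of bounded size. -/

namespace Pool.Agent.W2helper40.MO

open MeasureTheory ProbabilityTheory Finset Filter Topology

universe u

theorem GG_succ_le {d : ℕ} {ρ : ℝ} (h0 : 0 ≤ ρ) (h1 : ρ ≤ 1) (X : ℕ) :
    GG d ρ (X + 1) ≤ GG d ρ X + 1 := by
  unfold GG
  rw [sum_range_succ]
  have := wt_le_one (d := d) h0 h1 (X + 1)
  linarith

/-- the initial interval has the largest sum -/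
theorem GG_subadd {d : ℕ} (hd : 2 ≤ d) {ρ : ℝ} (h0 : 0 ≤ ρ) (h1 : ρ ≤ 1) (X : ℕ) :
    ∀ a N : ℕ, a + N ≤ X → GG d ρ (a + N) ≤ GG d ρ a + GG d ρ N := by
  induction X using Nat.strong_induction_on with
  | _ X ih =>
    intro a N haN
    rcases Nat.eq_zero_or_pos X with hX | hX
    · have ha : a = 0 := by omega
      have hN : N = 0 := by omega
      rw [ha, hN]
      simp [GG]
    · rw [GG_rec hd ρ (a + N), GG_rec hd ρ a, GG_rec hd ρ N]
      have hlt : X / d < X := Nat.div_lt_self hX (by omega)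
      have hsum : a / d + N / d ≤ X / d := by
        rw [Nat.le_div_iff_mul_le (by omega)]
        have h2 := Nat.div_mul_le_self a d
        have h3 := Nat.div_mul_le_self N d
        nlinarith
      have hI := ih (X / d) hlt (a / d) (N / d) hsum
      have hcases : (a + N) / d = a / d + N / d ∨ (a + N) / d = a / d + N / d + 1 := by
        rw [Nat.add_div (by omega)]
        split_ifs <;> simp
      rcases hcases with h2 | h2
      · rw [h2]
        push_cast
        nlinarith [mul_le_mul_of_nonneg_left hI h0]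
      · rw [h2]
        have h3 := GG_succ_le (d := d) h0 h1 (a / d + N / d)
        push_cast
        nlinarith [mul_le_mul_of_nonneg_left (h3.trans (add_le_add hI le_rfl)) h0]

theorem sum_wt2 {d : ℕ} (hd : 2 ≤ d) {ρ : ℝ} (h0 : 0 ≤ ρ) (h1 : ρ ≤ 1) {a N : ℕ} (ha : 1 ≤ a) :
    ∑ m ∈ Ico a (a + N), wt d ρ m ≤ GG d ρ N := by
  obtain ⟨a, rfl⟩ : ∃ a', a = a' + 1 := ⟨a - 1, by omega⟩
  rw [show a + 1 + N = (a + N) + 1 by ring,
    ← Finset.sum_Ico_add' (fun m => wt d ρ m) a (a + N) 1, Finset.sum_Ico_eq_sub _ (by omega)]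
  have := GG_subadd hd h0 h1 (a + N) a N le_rfl
  unfold GG at this ⊢
  linarith

/-- `∑_{m ≤ N} v_d(m)`, by recursion -/
def VV (d : ℕ) (N : ℕ) : ℕ :=
  if h : 2 ≤ d ∧ 0 < N then N / d + VV d (N / d) else 0
termination_by N
decreasing_by exact Nat.div_lt_self h.2 (by omega)

theorem VV_rec {d : ℕ} (hd : 2 ≤ d) (N : ℕ) : VV d N = N / d + VV d (N / d) := by
  rcases Nat.eq_zero_or_pos N with rfl | hN
  · rw [VV, dif_neg (by omega), Nat.zero_div]
    rw [VV, dif_neg (by omega)]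
  · rw [VV, dif_pos ⟨hd, hN⟩]

theorem VV_digits {d : ℕ} (hd : 2 ≤ d) (N : ℕ) : (d - 1) * VV d N + (Nat.digits d N).sum = N := by
  induction N using Nat.strong_induction_on with
  | _ N ih =>
    rcases Nat.eq_zero_or_pos N with rfl | hN
    · rw [VV, dif_neg (by omega)]
      simp
    · rw [VV_rec hd N, Nat.digits_def' (by omega) hN, List.sum_cons]
      have h1 := ih (N / d) (Nat.div_lt_self hN (by omega))
      have h2 := Nat.div_add_mod N d
      obtain ⟨e, rfl⟩ : ∃ e, d = e + 1 := ⟨d - 1, by omega⟩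
      simp only [Nat.add_sub_cancel] at h1 ⊢
      nlinarith

theorem VV_le {d : ℕ} (hd : 2 ≤ d) (N : ℕ) : VV d N ≤ N := by
  have := VV_digits hd N
  have h1 : 1 * VV d N ≤ (d - 1) * VV d N := Nat.mul_le_mul_right _ (by omega)
  omega

theorem GG_upper {d : ℕ} (hd : 2 ≤ d) {s : ℝ} (hs : 0 ≤ s) (N : ℕ) :
    GG d (Real.exp (-s)) N ≤ N - s * VV d N + 3 / 2 * s ^ 2 * N := by
  set ρ := Real.exp (-s) with hρ
  have hρ0 : 0 < ρ := Real.exp_pos _
  have hρ1 : ρ ≤ 1 := Real.exp_le_one_iff.2 (by linarith)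
  have hρ2 : ρ ≤ 1 - s + s ^ 2 / 2 := by
    have h := Real.quadratic_le_exp_of_nonneg hs
    have h1 : ρ * Real.exp s = 1 := by
      rw [hρ, ← Real.exp_add]
      simp
    have h2 : 0 ≤ 1 - s + s ^ 2 / 2 := by nlinarith [sq_nonneg (s - 1)]
    by_contra hc
    push Not at hc
    have h3 : (1 - s + s ^ 2 / 2) * (1 + s + s ^ 2 / 2) < ρ * Real.exp s := by
      have h4 : 0 < 1 + s + s ^ 2 / 2 := by positivity
      calc (1 - s + s ^ 2 / 2) * (1 + s + s ^ 2 / 2) < ρ * (1 + s + s ^ 2 / 2) :=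
            mul_lt_mul_of_pos_right hc h4
        _ ≤ ρ * Real.exp s := mul_le_mul_of_nonneg_left h hρ0.le
    rw [h1] at h3
    nlinarith [sq_nonneg (s ^ 2)]
  have hρ3 : 1 - ρ ≤ s := by
    have := Real.add_one_le_exp (-s)
    linarith
  induction N using Nat.strong_induction_on with
  | _ N ih =>
    rcases Nat.eq_zero_or_pos N with rfl | hN
    · rw [VV, dif_neg (by omega)]
      simp [GG]
    · have hI := ih (N / d) (Nat.div_lt_self hN (by omega))
      rw [GG_rec hd ρ N, VV_rec hd N]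
      have hV : ((VV d (N / d) : ℕ) : ℝ) ≤ ((N / d : ℕ) : ℝ) := by exact_mod_cast VV_le hd _
      have hV0 : (0 : ℝ) ≤ ((VV d (N / d) : ℕ) : ℝ) := by positivity
      have hN2 : 2 * ((N / d : ℕ) : ℝ) ≤ N := by
        have h1 : N / d ≤ N / 2 := Nat.div_le_div_left hd (by norm_num)
        have h2 : 2 * (N / d) ≤ N := by omega
        exact_mod_cast h2
      set N' : ℝ := ((N / d : ℕ) : ℝ) with hN'
      have hN0 : 0 ≤ N' := by positivity
      set V : ℝ := ((VV d (N / d) : ℕ) : ℝ) with hVd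
      push_cast
      have e1 := mul_le_mul_of_nonneg_left hI hρ0.le
      have e2 := mul_le_mul_of_nonneg_right hρ2 hN0
      have e3 : (1 - ρ) * (s * V) ≤ s * (s * N') := by
        apply mul_le_mul hρ3 _ (by positivity) hs
        exact mul_le_mul_of_nonneg_left hV hs
      have e4 : ρ * (3 / 2 * s ^ 2 * N') ≤ 1 * (3 / 2 * s ^ 2 * N') :=
        mul_le_mul_of_nonneg_right hρ1 (by positivity)
      have e5 : s ^ 2 * (2 * N') ≤ s ^ 2 * N := mul_le_mul_of_nonneg_left hN2 (by positivity)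
      nlinarith

/-- negative drift, uniformly -/
def Contracting (d m N : ℕ) (δ : ℝ) : Prop :=
  ((d : ℝ) - 1) * (Real.log m - Real.log d) + δ ≤
    (1 - ((Nat.digits d N).sum : ℝ) / N) * Real.log d

/-- the parameters -/
theorem exists_par {d m : ℕ} (hd : 2 ≤ d) (hm : 1 ≤ m) {δ : ℝ} (hδ : 0 < δ) :
    ∃ t η : ℝ, 0 < t ∧ 0 < η ∧ η < Real.log d ∧ ∀ N : ℕ, 1 ≤ N → Contracting d m N δ →
      ((m : ℝ) / d) ^ t * (GG d (Real.exp (-(t * (Real.log d - η)))) N / N) ≤
        Real.exp (-(2 * η * t)) := by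
  have hdr : (2 : ℝ) ≤ d := by exact_mod_cast hd
  have hmr : (1 : ℝ) ≤ m := by exact_mod_cast hm
  have hd1 : 0 < (d : ℝ) - 1 := by linarith
  have hl : 0 < Real.log d := Real.log_pos (by linarith)
  set η : ℝ := min (δ / (4 * (d - 1))) (Real.log d / 2) with hη
  have hη0 : 0 < η := lt_min (by positivity) (by positivity)
  have hη1 : η ≤ δ / (4 * (d - 1)) := min_le_left _ _
  have hη2 : η ≤ Real.log d / 2 := min_le_right _ _
  set t : ℝ := (δ / (4 * (d - 1))) / (3 / 2 * (Real.log d) ^ 2) with ht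
  have ht0 : 0 < t := by positivity
  refine ⟨t, η, ht0, hη0, by linarith, fun N hN hc => ?_⟩
  have hN0 : (0 : ℝ) < N := by exact_mod_cast hN
  set s : ℝ := t * (Real.log d - η) with hs
  have hs0 : 0 ≤ s := by
    rw [hs]
    exact mul_nonneg ht0.le (by linarith)
  have hG := GG_upper hd hs0 N
  set v : ℝ := (VV d N : ℝ) / N with hv
  have hv1 : v ≤ 1 := by
    rw [hv, div_le_one hN0]
    exact_mod_cast VV_le hd N
  have hvd : ((d : ℝ) - 1) * v = 1 - ((Nat.digits d N).sum : ℝ) / N := by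
    have h1 := VV_digits hd N
    generalize (Nat.digits d N).sum = D at h1 ⊢
    have h2 : ((d : ℝ) - 1) * (VV d N : ℝ) + (D : ℝ) = N := by
      have h3 : (((d - 1) * VV d N + D : ℕ) : ℝ) = (N : ℝ) := by exact_mod_cast h1
      push_cast [Nat.cast_sub (by omega : 1 ≤ d)] at h3
      linarith
    rw [hv]
    field_simp
    linarith
  have hdrift : Real.log m - Real.log d + δ / (d - 1) ≤ v * Real.log d := by
    unfold Contracting at hc
    rw [← hvd] at hc
    have h1 : Real.log m - Real.log d + δ / (d - 1) =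
        (((d : ℝ) - 1) * (Real.log m - Real.log d) + δ) / (d - 1) := by
      field_simp
    rw [h1, div_le_iff₀ hd1]
    linarith
  have hGN : GG d (Real.exp (-s)) N / N ≤ 1 - s * v + 3 / 2 * s ^ 2 := by
    rw [div_le_iff₀ hN0]
    have : (1 - s * v + 3 / 2 * s ^ 2) * N = N - s * VV d N + 3 / 2 * s ^ 2 * N := by
      rw [hv]
      field_simp
    rw [this]
    exact hG
  have hexp : 1 - s * v + 3 / 2 * s ^ 2 ≤ Real.exp (-(s * v) + 3 / 2 * s ^ 2) := by
    have := Real.add_one_le_exp (-(s * v) + 3 / 2 * s ^ 2)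
    linarith
  have hG0 : 0 ≤ GG d (Real.exp (-s)) N / N := by
    apply div_nonneg _ hN0.le
    unfold GG
    exact Finset.sum_nonneg fun m _ => wt_nonneg (Real.exp_pos _).le _
  have hmd : ((m : ℝ) / d) ^ t = Real.exp (t * (Real.log m - Real.log d)) := by
    rw [Real.rpow_def_of_pos (by positivity), Real.log_div (by positivity) (by positivity)]
    ring_nf
  calc ((m : ℝ) / d) ^ t * (GG d (Real.exp (-s)) N / N)
      ≤ ((m : ℝ) / d) ^ t * Real.exp (-(s * v) + 3 / 2 * s ^ 2) :=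
        mul_le_mul_of_nonneg_left (hGN.trans hexp) (by positivity)
    _ = Real.exp (t * (Real.log m - Real.log d) + (-(s * v) + 3 / 2 * s ^ 2)) := by
        rw [hmd, ← Real.exp_add]
    _ ≤ Real.exp (-(2 * η * t)) := by
        apply Real.exp_le_exp.2
        have h1 : s * v = t * (Real.log d * v - η * v) := by
          rw [hs]
          ring
        have h2 : s ^ 2 ≤ t ^ 2 * (Real.log d) ^ 2 := by
          rw [hs, mul_pow]
          apply mul_le_mul_of_nonneg_left _ (by positivity)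
          apply pow_le_pow_left₀ (by linarith)
          linarith
        have h3 : 3 / 2 * (t ^ 2 * (Real.log d) ^ 2) = t * (δ / (4 * (d - 1))) := by
          rw [ht]
          field_simp
        have h4 : η * v ≤ η := by nlinarith
        have h5 : δ / (d - 1) = 4 * (δ / (4 * (d - 1))) := by
          field_simp
        have h6 : t * (Real.log m - Real.log d + δ / (d - 1)) ≤ t * (v * Real.log d) :=
          mul_le_mul_of_nonneg_left hdrift ht0.le
        have h7 : t * (η * v) ≤ t * η := mul_le_mul_of_nonneg_left h4 ht0.le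
        have h8 : t * η ≤ t * (δ / (4 * (d - 1))) := mul_le_mul_of_nonneg_left hη1 ht0.le
        rw [h5] at h6
        nlinarith

theorem step2 {d m : ℕ} (hd : 2 ≤ d) (hm : 1 ≤ m) {lo hi : ℕ → ℤ}
    (hH : Tendsto (fun n : ℕ => ((hi n : ℤ) : ℝ) / n) atTop (𝓝 ((m : ℝ) / d)))
    {δ : ℝ} (hD : ∀ᶠ n : ℕ in atTop, lo n < hi n ∧ Contracting d m (hi n - lo n).toNat δ)
    (hlo : ∀ᶠ n : ℕ in atTop, 1 ≤ lo n) {t η : ℝ} (ht : 0 < t) (hη : 0 < η) (hη1 : η < Real.log d)
    (hpar : ∀ N : ℕ, 1 ≤ N → Contracting d m N δ →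
      ((m : ℝ) / d) ^ t * (GG d (Real.exp (-(t * (Real.log d - η)))) N / N) ≤
        Real.exp (-(2 * η * t))) :
    ∀ᶠ n : ℕ in atTop, n % d ≠ 0 →
      ∑ j ∈ Ico (lo n) (hi n), hh d t (Real.exp (-(t * (Real.log d - η)))) j.toNat ≤
        ((hi n - lo n : ℤ) : ℝ) * (Real.exp (-(η * t)) *
          hh d t (Real.exp (-(t * (Real.log d - η)))) n) := by
  have hdr : (2 : ℝ) ≤ d := by exact_mod_cast hd
  have hmr : (1 : ℝ) ≤ m := by exact_mod_cast hm
  have hmd : 0 < (m : ℝ) / d := by positivity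
  set ρ := Real.exp (-(t * (Real.log d - η))) with hρ
  have h0 : 0 ≤ ρ := (Real.exp_pos _).le
  have h1 : ρ ≤ 1 := Real.exp_le_one_iff.2 (by
    have : 0 ≤ t * (Real.log d - η) := mul_nonneg ht.le (by linarith)
    linarith)
  have lc2 : Tendsto (fun n : ℕ => (((hi n : ℤ) : ℝ) / n) ^ t) atTop (𝓝 (((m : ℝ) / d) ^ t)) :=
    hH.rpow_const (Or.inl hmd.ne')
  have h32 : (0 : ℝ) < ((m : ℝ) / d) ^ t := by positivity
  have hexp1 : 1 < Real.exp (η * t) := Real.one_lt_exp_iff.2 (by positivity)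
  have hev := lc2.eventually (gt_mem_nhds
    (show ((m : ℝ) / d) ^ t < Real.exp (η * t) * ((m : ℝ) / d) ^ t by nlinarith))
  filter_upwards [hev, eventually_ge_atTop 1, hlo, hD] with n hn hn1 hlo1 hDn ho
  obtain ⟨hlh, hcon⟩ := hDn
  have hn0 : (0 : ℝ) < n := by exact_mod_cast hn1
  rw [toNat_sum hlo1]
  have hhi0 : (0 : ℝ) ≤ ((hi n : ℤ) : ℝ) := by exact_mod_cast (by omega : 0 ≤ hi n)
  have e1 : ∀ j ∈ Ico (lo n).toNat (hi n).toNat, hh d t ρ j ≤ ((hi n : ℤ) : ℝ) ^ t * wt d ρ j := by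
    intro j hj
    rw [mem_Ico] at hj
    unfold hh
    apply mul_le_mul_of_nonneg_right _ (wt_nonneg h0 j)
    apply Real.rpow_le_rpow (by positivity) _ ht.le
    have : (j : ℤ) ≤ hi n := by omega
    exact_mod_cast this
  refine (Finset.sum_le_sum e1).trans ?_
  rw [← Finset.mul_sum]
  set N := (hi n - lo n).toNat with hN
  have hN1 : 1 ≤ N := by omega
  have hNr : ((hi n - lo n : ℤ) : ℝ) = (N : ℝ) := by
    have : (hi n - lo n : ℤ) = (N : ℤ) := by omega
    rw [this]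
    push_cast
    rfl
  have h3 := sum_wt2 hd h0 h1 (a := (lo n).toNat) (N := N) (show 1 ≤ (lo n).toNat by omega)
  rw [show (lo n).toNat + N = (hi n).toNat by omega] at h3
  have h4 := hpar N hN1 hcon
  rw [hNr]
  have hN0 : (0 : ℝ) < N := by exact_mod_cast hN1
  have h5 : ((hi n : ℤ) : ℝ) ^ t = (((hi n : ℤ) : ℝ) / n) ^ t * (n : ℝ) ^ t := by
    rw [← Real.mul_rpow (by positivity) hn0.le]
    congr 1
    field_simp
  have h6 : hh d t ρ n = (n : ℝ) ^ t := by
    unfold hh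
    rw [wt_of_not ho, mul_one]
  rw [h6]
  have hnt : 0 < (n : ℝ) ^ t := by positivity
  have hG0 : 0 ≤ GG d ρ N := by
    unfold GG
    exact Finset.sum_nonneg fun m _ => wt_nonneg h0 _
  calc ((hi n : ℤ) : ℝ) ^ t * ∑ j ∈ Ico (lo n).toNat (hi n).toNat, wt d ρ j
      ≤ ((hi n : ℤ) : ℝ) ^ t * GG d ρ N := mul_le_mul_of_nonneg_left h3 (by positivity)
    _ = (((hi n : ℤ) : ℝ) / n) ^ t * ((n : ℝ) ^ t * GG d ρ N) := by
        rw [h5]
        ring
    _ ≤ (Real.exp (η * t) * ((m : ℝ) / d) ^ t) * ((n : ℝ) ^ t * GG d ρ N) :=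
        mul_le_mul_of_nonneg_right hn.le (by positivity)
    _ = Real.exp (η * t) * (((m : ℝ) / d) ^ t * (GG d ρ N / N)) * (N * (n : ℝ) ^ t) := by
        field_simp
    _ ≤ Real.exp (η * t) * Real.exp (-(2 * η * t)) * (N * (n : ℝ) ^ t) := by
        apply mul_le_mul_of_nonneg_right _ (by positivity)
        exact mul_le_mul_of_nonneg_left h4 (Real.exp_pos _).le
    _ = N * (Real.exp (-(η * t)) * (n : ℝ) ^ t) := by
        rw [← Real.exp_add, show η * t + -(2 * η * t) = -(η * t) by ring]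
        ring

theorem exists_C2 {d m : ℕ} (hd : 2 ≤ d) (hm : 1 ≤ m) {δ : ℝ} (hδ : 0 < δ) :
    ∃ C : ℝ, 0 < C ∧ ∀ {Ω : Type u} [MeasurableSpace Ω] {x₀ : ℕ} {lo hi : ℕ → ℤ}
      {P : Measure Ω} [IsProbabilityMeasure P] {Y : ℕ → Ω → ℤ}, Env d x₀ lo hi P Y →
      Tendsto (fun n : ℕ => ((hi n : ℤ) : ℝ) / n) atTop (𝓝 ((m : ℝ) / d)) →
      (∀ᶠ n : ℕ in atTop, lo n < hi n ∧ Contracting d m (hi n - lo n).toNat δ) →
      (∀ᶠ n : ℕ in atTop, 1 ≤ lo n) →
      ∃ N₀ : ℕ, ∀ᵐ ω ∂P, ∀ᶠ n : ℕ in atTop, ¬ Esc d N₀ (fun i => Y i ω) ⌈C * Real.log n⌉₊ ∅ n := by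
  obtain ⟨t, η, ht, hη, hη1, hpar⟩ := exists_par hd hm hδ
  set ρ := Real.exp (-(t * (Real.log d - η))) with hρ
  have hρ0 : 0 < ρ := Real.exp_pos _
  have hρ1 : ρ ≤ 1 := Real.exp_le_one_iff.2 (by
    have : 0 ≤ t * (Real.log d - η) := mul_nonneg ht.le (by linarith)
    linarith)
  set lam : ℝ := Real.exp (-(η * t)) with hlam
  have hlam0 : 0 < lam := Real.exp_pos _
  have hd0 : (0 : ℝ) < d := by exact_mod_cast (by omega : 0 < d)
  have hdt : (d : ℝ) ^ t * ρ = Real.exp (η * t) := by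
    rw [Real.rpow_def_of_pos hd0, hρ, ← Real.exp_add]
    ring_nf
  have hdti : ((d : ℝ) ^ t * ρ)⁻¹ = lam := by
    rw [hdt, ← Real.exp_neg]
  have h1dt : 1 ≤ (d : ℝ) ^ t * ρ := by
    rw [hdt]
    exact Real.one_le_exp (by positivity)
  refine ⟨(t + 2) / (η * t), by positivity, ?_⟩
  intro Ω _ x₀ lo hi P _ Y hE hH hD hlo
  obtain ⟨N, hNN⟩ := eventually_atTop.1 (step2 hd hm hH hD hlo ht hη hη1 hpar)
  set N₀ : ℕ := max (max N 1) x₀ with hN₀
  refine ⟨N₀, ?_⟩
  have hprob : ∀ n : ℕ, 1 ≤ n → ∀ k : ℕ,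
      P.real {ω | Esc d N₀ (fun i => Y i ω) k ∅ n} ≤ lam ^ k * (n : ℝ) ^ t := by
    intro n hn k
    have h5 := esc_bound hd hE (N₀ := N₀) (le_max_right _ _) (h := hh d t ρ) hlam0.le
      (fun n hn => hh_ge hd ht.le hρ0 h1dt n hn) ?_ ?_ k ∅ n (fun _ => True) hn
      (fun _ _ _ => Iff.rfl)
    · simp only [true_and] at h5
      refine h5.trans ?_
      have h6 : P.real {ω : Ω | True} ≤ 1 := measureReal_le_one
      have h7 : 0 ≤ lam ^ k * hh d t ρ n :=
        mul_nonneg (pow_nonneg hlam0.le _) (hh_nonneg hρ0.le n)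
      calc P.real {ω : Ω | True} * (lam ^ k * hh d t ρ n)
          ≤ 1 * (lam ^ k * hh d t ρ n) := mul_le_mul_of_nonneg_right h6 h7
        _ ≤ lam ^ k * (n : ℝ) ^ t := by
            rw [one_mul]
            exact mul_le_mul_of_nonneg_left (hh_le hρ0.le hρ1 n) (by positivity)
    · intro n hn he
      have hn1 : 1 ≤ n := le_trans (le_trans (le_max_right _ _) (le_max_left _ _)) hn
      rw [hh_dvd hd hρ0.ne' hn1 he, hdti]
    · intro n hn ho
      exact hNN n (le_trans (le_trans (le_max_left _ _) (le_max_left _ _)) hn) ho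
  set C : ℝ := (t + 2) / (η * t) with hC
  set s : ℕ → Set Ω := fun n => {ω | 1 ≤ n ∧ Esc d N₀ (fun i => Y i ω) ⌈C * Real.log n⌉₊ ∅ n} with hs
  have hbound : ∀ n, P (s n) ≤ ENNReal.ofReal ((n : ℝ) ^ (-2 : ℝ)) := by
    intro n
    rcases Nat.eq_zero_or_pos n with rfl | hn
    · have : s 0 = ∅ := by
        ext ω
        simp [hs]
      rw [this, measure_empty]
      exact zero_le
    · rw [ENNReal.le_ofReal_iff_toReal_le (measure_ne_top _ _) (by positivity)]
      have hn1 : (1 : ℝ) ≤ n := by exact_mod_cast hn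
      have hn0 : (0 : ℝ) < n := by linarith
      have hln : 0 ≤ Real.log n := Real.log_nonneg hn1
      have h1 : P.real (s n) ≤ lam ^ ⌈C * Real.log n⌉₊ * (n : ℝ) ^ t := by
        refine le_trans (measureReal_mono ?_) (hprob n hn _)
        intro ω hω
        exact hω.2
      refine h1.trans ?_
      have h2 : lam ^ ⌈C * Real.log n⌉₊ ≤ (n : ℝ) ^ (-(t + 2)) := by
        rw [hlam, ← Real.exp_nat_mul, Real.rpow_def_of_pos hn0]
        apply Real.exp_le_exp.2
        have h3 := Nat.le_ceil (C * Real.log n)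
        have h4 : (C * Real.log n) * (η * t) ≤ (⌈C * Real.log n⌉₊ : ℝ) * (η * t) :=
          mul_le_mul_of_nonneg_right h3 (by positivity)
        have h5 : (C * Real.log n) * (η * t) = Real.log n * (t + 2) := by
          rw [hC]
          field_simp
        linarith
      calc lam ^ ⌈C * Real.log n⌉₊ * (n : ℝ) ^ t ≤ (n : ℝ) ^ (-(t + 2)) * (n : ℝ) ^ t :=
            mul_le_mul_of_nonneg_right h2 (by positivity)
        _ = (n : ℝ) ^ (-2 : ℝ) := by
            rw [← Real.rpow_add hn0]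
            ring_nf
  have hsum : ∑' n, P (s n) ≠ ⊤ := by
    have h1 : Summable fun n : ℕ => (n : ℝ) ^ (-2 : ℝ) := by
      rw [Real.summable_nat_rpow]
      norm_num
    exact ne_top_of_le_ne_top h1.tsum_ofReal_ne_top (ENNReal.tsum_le_tsum hbound)
  filter_upwards [ae_eventually_notMem hsum] with ω hω
  filter_upwards [hω, eventually_ge_atTop 1] with n hn hn1 hesc
  exact hn ⟨hn1, hesc⟩

end Pool.Agent.W2helper40.MO
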