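import Pool.Agent.W2helper40.MO.Fin2

set_option autoImplicit false

/-! If the exceptional set is finite, then all trajectories stop or are eventually periodic. -/

namespace Pool.Agent.W2helper40.MO

open Finset Filter Topology

/-- the exceptional set -/
def EE (d m : ℕ) (r : ℕ → ℤ) : Set ℕ :=
  {n | ¬ d ∣ n ∧ ∀ k, 1 ≤ k → Def d m r n k → n ≤ (H d m r)^[k] n}

theorem not_dvd_iter {d m : ℕ} (hd : 2 ≤ d) {r : ℕ → ℤ} {n : ℕ} (hn : ¬ d ∣ n)
    (hdef : ∀ k, Def d m r n k) (k : ℕ) : ¬ d ∣ (H d m r)^[k] n := by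
  cases k with
  | zero => exact hn
  | succ k =>
    rw [Function.iterate_succ_apply']
    have h1 := hdef (k + 1) k (by omega)
    obtain ⟨_, _, h2⟩ := H_spec (m := m) hd (r := r) (x := (H d m r)^[k] n) (by linarith)
    exact h2

/-- infinitely many points of the trajectory are exceptional -/
theorem exists_min {d m : ℕ} (hd : 2 ≤ d) {r : ℕ → ℤ} {n : ℕ} (hn : ¬ d ∣ n)
    (hdef : ∀ k, Def d m r n k) (K : ℕ) : ∃ k, K ≤ k ∧ (H d m r)^[k] n ∈ EE d m r ∧
      ∀ j, K ≤ j → (H d m r)^[k] n ≤ (H d m r)^[j] n := by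
  have hne : (Set.range fun i => (H d m r)^[K + i] n).Nonempty := Set.range_nonempty _
  obtain ⟨i, hi⟩ := Nat.sInf_mem hne
  have hmin : ∀ j, K ≤ j → (H d m r)^[K + i] n ≤ (H d m r)^[j] n := by
    intro j hj
    simp only at hi
    rw [hi]
    exact Nat.sInf_le ⟨j - K, by simp only [show K + (j - K) = j by omega]⟩
  refine ⟨K + i, by omega, ⟨not_dvd_iter hd hn hdef _, fun k _ _ => ?_⟩, hmin⟩
  rw [← Function.iterate_add_apply]
  exact hmin _ (by omega)

theorem eventually_periodic {d m : ℕ} (hd : 2 ≤ d) {r : ℕ → ℤ} (hE : (EE d m r).Finite) {n : ℕ}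
    (hn : ¬ d ∣ n) (hdef : ∀ k, Def d m r n k) :
    ∃ k, (H d m r)^[k] n ∈ Function.periodicPts (H d m r) := by
  have hinf : {k : ℕ | (H d m r)^[k] n ∈ EE d m r}.Infinite := by
    rw [Set.infinite_iff_exists_gt]
    intro a
    obtain ⟨k, hk, h, _⟩ := exists_min hd hn hdef (a + 1)
    exact ⟨k, h, by omega⟩
  have hmaps : Set.MapsTo (fun s => (H d m r)^[s] n) {k : ℕ | (H d m r)^[k] n ∈ EE d m r}
      (EE d m r) := fun s hs => hs
  obtain ⟨s, _, s', _, hne, heq⟩ := hinf.exists_ne_map_eq_of_mapsTo hmaps hE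
  have key : ∀ i j : ℕ, i < j → (H d m r)^[i] n = (H d m r)^[j] n →
      (H d m r)^[i] n ∈ Function.periodicPts (H d m r) := by
    intro i j hij h
    refine ⟨j - i, by omega, ?_⟩
    unfold Function.IsPeriodicPt Function.IsFixedPt
    rw [← Function.iterate_add_apply, Nat.sub_add_cancel hij.le]
    exact h.symm
  rcases lt_or_gt_of_ne hne with h2 | h2
  · exact ⟨s, key s s' h2 heq⟩
  · exact ⟨s', key s' s h2 heq.symm⟩

theorem cycles_finite {d m : ℕ} (hd : 2 ≤ d) {r : ℕ → ℤ} (hE : (EE d m r).Finite) :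
    {n : ℕ | ¬ d ∣ n ∧ (∀ k, Def d m r n k) ∧ n ∈ Function.periodicPts (H d m r)}.Finite := by
  obtain ⟨B, hB⟩ := hE.bddAbove
  have horb : ∃ B' : ℕ, ∀ s ≤ B, s ∈ Function.periodicPts (H d m r) → ∀ k, (H d m r)^[k] s ≤ B' := by
    have h : ∀ s : ℕ, ∃ B : ℕ, s ∈ Function.periodicPts (H d m r) → ∀ k, (H d m r)^[k] s ≤ B := by
      intro s
      by_cases hs : s ∈ Function.periodicPts (H d m r)
      · obtain ⟨p, hp, hper⟩ := hs
        refine ⟨(range p).sup (fun k => (H d m r)^[k] s), fun _ k => ?_⟩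
        rw [← hper.iterate_mod_apply k]
        exact Finset.le_sup (f := fun k => (H d m r)^[k] s) (mem_range.2 (Nat.mod_lt _ hp))
      · exact ⟨0, fun h => absurd h hs⟩
    choose f hf using h
    exact ⟨(range (B + 1)).sup f, fun s hs hper k =>
      (hf s hper k).trans (Finset.le_sup (mem_range.2 (by omega)))⟩
  obtain ⟨B', hB'⟩ := horb
  apply (Set.finite_Iic B').subset
  rintro n ⟨hn, hdef, hper⟩
  rw [Set.mem_Iic]
  obtain ⟨k, _, h1, _⟩ := exists_min hd hn hdef 0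
  have h2 : (H d m r)^[k] n ≤ B := hB h1
  obtain ⟨p, hp, hp2⟩ := hper
  have h3 : (H d m r)^[k] n ∈ Function.periodicPts (H d m r) := ⟨p, hp, hp2.apply_iterate k⟩
  have h4 := hB' _ h2 h3 (p * k - k)
  rw [← Function.iterate_add_apply, Nat.sub_add_cancel (Nat.le_mul_of_pos_left k hp)] at h4
  rwa [(hp2.mul_const k : (H d m r)^[p * k] n = n)] at h4

end Pool.Agent.W2helper40.MO
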