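import Pool.Agent.W2helper40.MO.Lyap

set_option autoImplicit false

/-! Almost surely the orbit of a large number does not escape for `C log n` steps. -/

namespace Pool.Agent.W2helper40.MO

open MeasureTheory ProbabilityTheory Finset Filter Topology

universe u

theorem esc_M {Ω : Type u} [MeasurableSpace Ω] {d m x₀ : ℕ} (hd : 2 ≤ d) (hm : 1 ≤ m) {lo hi : ℕ → ℤ}
    {P : Measure Ω} [IsProbabilityMeasure P] {Y : ℕ → Ω → ℤ} (hE : Env d x₀ lo hi P Y)
    (hH : Tendsto (fun n : ℕ => ((hi n : ℤ) : ℝ) / n) atTop (𝓝 ((m : ℝ) / d)))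
    (hN : Tendsto (fun n : ℕ => ((hi n - lo n : ℤ) : ℝ)) atTop atTop)
    (hlo : ∀ᶠ n : ℕ in atTop, 1 ≤ lo n) {t : ℝ} (ht : 0 ≤ t) (hM : MM d m t ≤ 1)
    {ε : ℝ} (hε : 0 < ε) :
    ∃ N₀ : ℕ, 1 ≤ N₀ ∧ x₀ ≤ N₀ ∧ ∀ n : ℕ, 1 ≤ n → ∀ k : ℕ,
      P.real {ω | Esc d N₀ (fun i => Y i ω) k ∅ n} ≤ ((1 + ε) * MM d m t) ^ k * (n : ℝ) ^ t := by
  obtain ⟨hρ0, hρ1, h1, h2⟩ := rho_spec hd hm ht
  set ρ := rho d m t with hρ
  obtain ⟨N, hNN⟩ := eventually_atTop.1 (step hd hm hH hN hlo ht hρ0.le hρ1 hε)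
  refine ⟨max (max N 1) x₀, le_trans (le_max_right _ _) (le_max_left _ _), le_max_right _ _,
    fun n hn k => ?_⟩
  have hMp := MM_pos hd hm t
  have hlam : 0 ≤ (1 + ε) * MM d m t := by positivity
  have h2ρ : 1 ≤ (d : ℝ) ^ t * ρ := by
    rw [← h1] at hM
    have hd0 : (0 : ℝ) < d := by exact_mod_cast (by omega : 0 < d)
    exact (inv_le_one₀ (by positivity)).1 hM
  have h5 := esc_bound hd hE (N₀ := max (max N 1) x₀) (le_max_right _ _) (h := hh d t ρ) hlam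
    (fun n hn => hh_ge hd ht hρ0 h2ρ n hn) ?_ ?_ k ∅ n (fun _ => True) hn (fun _ _ _ => Iff.rfl)
  · simp only [true_and] at h5
    refine h5.trans ?_
    have h6 : P.real {ω : Ω | True} ≤ 1 := measureReal_le_one
    have h7 : 0 ≤ ((1 + ε) * MM d m t) ^ k * hh d t ρ n :=
      mul_nonneg (pow_nonneg hlam _) (hh_nonneg hρ0.le n)
    calc P.real {ω : Ω | True} * (((1 + ε) * MM d m t) ^ k * hh d t ρ n)
        ≤ 1 * (((1 + ε) * MM d m t) ^ k * hh d t ρ n) := mul_le_mul_of_nonneg_right h6 h7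
      _ ≤ ((1 + ε) * MM d m t) ^ k * (n : ℝ) ^ t := by
          rw [one_mul]
          exact mul_le_mul_of_nonneg_left (hh_le hρ0.le hρ1 n) (by positivity)
  · intro n hn he
    have hn1 : 1 ≤ n := le_trans (le_trans (le_max_right _ _) (le_max_left _ _)) hn
    rw [hh_dvd hd hρ0.ne' hn1 he, h1]
    have h8 := mul_nonneg hMp.le (hh_nonneg (d := d) (t := t) hρ0.le n)
    nlinarith
  · intro n hn ho
    have := hNN n (le_trans (le_trans (le_max_left _ _) (le_max_left _ _)) hn) ho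
    rwa [h2] at this

theorem exists_C {d m : ℕ} (hd : 2 ≤ d) (hm : 1 ≤ m)
    (hlt : ((d : ℝ) - 1) * Real.log m < d * Real.log d) :
    ∃ C : ℝ, 0 < C ∧ ∀ {Ω : Type u} [MeasurableSpace Ω] {x₀ : ℕ} {lo hi : ℕ → ℤ}
      {P : Measure Ω} [IsProbabilityMeasure P] {Y : ℕ → Ω → ℤ}, Env d x₀ lo hi P Y →
      Tendsto (fun n : ℕ => ((hi n : ℤ) : ℝ) / n) atTop (𝓝 ((m : ℝ) / d)) →
      Tendsto (fun n : ℕ => ((hi n - lo n : ℤ) : ℝ)) atTop atTop →
      (∀ᶠ n : ℕ in atTop, 1 ≤ lo n) →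
      ∃ N₀ : ℕ, ∀ᵐ ω ∂P, ∀ᶠ n : ℕ in atTop, ¬ Esc d N₀ (fun i => Y i ω) ⌈C * Real.log n⌉₊ ∅ n := by
  obtain ⟨t, ht, hM⟩ := exists_contract hd hm hlt
  have hMp := MM_pos hd hm t
  set ε : ℝ := (1 / MM d m t - 1) / 2 with hε
  have hinv : 1 < 1 / MM d m t := by
    rw [lt_div_iff₀ hMp]
    linarith
  have hε0 : 0 < ε := by
    rw [hε]
    linarith
  set lam : ℝ := (1 + ε) * MM d m t with hlam
  have hlam0 : 0 < lam := by positivity
  have hlam1 : lam < 1 := by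
    have h1 : lam = (1 + MM d m t) / 2 := by
      rw [hlam, hε]
      field_simp
      ring
    rw [h1]
    linarith
  have hlog : Real.log lam < 0 := Real.log_neg hlam0 hlam1
  refine ⟨(t + 2) / (-Real.log lam), div_pos (by linarith) (by linarith), ?_⟩
  intro Ω _ x₀ lo hi P _ Y hE hH hN hlo
  obtain ⟨N₀, hN1, hN2, hN0⟩ := esc_M hd hm hE hH hN hlo ht.le hM.le hε0
  refine ⟨N₀, ?_⟩
  set C : ℝ := (t + 2) / (-Real.log lam) with hC
  set s : ℕ → Set Ω := fun n => {ω | 1 ≤ n ∧ Esc d N₀ (fun i => Y i ω) ⌈C * Real.log n⌉₊ ∅ n} with hs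
  have hbound : ∀ n, P (s n) ≤ ENNReal.ofReal ((n : ℝ) ^ (-2 : ℝ)) := by
    intro n
    rcases Nat.eq_zero_or_pos n with rfl | hn
    · have : s 0 = ∅ := by
        ext ω
        simp [hs]
      rw [this, measure_empty]
      exact zero_le
    · rw [ENNReal.le_ofReal_iff_toReal_le (measure_ne_top _ _) (by positivity)]
      have hn1 : (1 : ℝ) ≤ n := by exact_mod_cast hn
      have hn0 : (0 : ℝ) < n := by linarith
      have hln : 0 ≤ Real.log n := Real.log_nonneg hn1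
      have h1 : P.real (s n) ≤ lam ^ ⌈C * Real.log n⌉₊ * (n : ℝ) ^ t := by
        refine le_trans (measureReal_mono ?_) (hN0 n hn _)
        intro ω hω
        exact hω.2
      refine h1.trans ?_
      have h2 : lam ^ ⌈C * Real.log n⌉₊ ≤ (n : ℝ) ^ (-(t + 2)) := by
        rw [← Real.exp_log (show 0 < lam ^ ⌈C * Real.log n⌉₊ by positivity), Real.log_pow,
          Real.rpow_def_of_pos hn0]
        apply Real.exp_le_exp.2
        have h3 := Nat.le_ceil (C * Real.log n)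
        have h4 : (⌈C * Real.log n⌉₊ : ℝ) * Real.log lam ≤ (C * Real.log n) * Real.log lam :=
          mul_le_mul_of_nonpos_right h3 hlog.le
        have h5 : (C * Real.log n) * Real.log lam = Real.log n * -(t + 2) := by
          rw [hC]
          have : Real.log lam ≠ 0 := hlog.ne
          field_simp
        linarith
      calc lam ^ ⌈C * Real.log n⌉₊ * (n : ℝ) ^ t ≤ (n : ℝ) ^ (-(t + 2)) * (n : ℝ) ^ t :=
            mul_le_mul_of_nonneg_right h2 (by positivity)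
        _ = (n : ℝ) ^ (-2 : ℝ) := by
            rw [← Real.rpow_add hn0]
            ring_nf
  have hsum : ∑' n, P (s n) ≠ ⊤ := by
    have h1 : Summable fun n : ℕ => (n : ℝ) ^ (-2 : ℝ) := by
      rw [Real.summable_nat_rpow]
      norm_num
    exact ne_top_of_le_ne_top h1.tsum_ofReal_ne_top (ENNReal.tsum_le_tsum hbound)
  filter_upwards [ae_eventually_notMem hsum] with ω hω
  filter_upwards [hω, eventually_ge_atTop 1] with n hn hn1 hesc
  exact hn ⟨hn1, hesc⟩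

theorem not_esc {d N₀ : ℕ} {y : ℕ → ℤ} (k : ℕ) : ∀ (A : Finset ℕ) (n : ℕ), ¬ Esc d N₀ y k A n →
    ∃ i < k, (S d y)^[i] n < N₀ ∨ (S d y)^[i] n ∈ A ∨ ∃ i' < i, (S d y)^[i'] n = (S d y)^[i] n := by
  induction k with
  | zero =>
    intro A n h
    exact absurd trivial h
  | succ k ih =>
    intro A n h
    by_cases h1 : n ∈ A
    · exact ⟨0, by omega, Or.inr (Or.inl h1)⟩
    by_cases h2 : N₀ ≤ n
    swap
    · exact ⟨0, by omega, Or.inl (by simpa using h2)⟩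
    have h3 : ¬ Esc d N₀ y k (insert n A) (S d y n) := fun h4 => h ⟨h1, h2, h4⟩
    obtain ⟨i, hi, h5⟩ := ih _ _ h3
    refine ⟨i + 1, by omega, ?_⟩
    rw [← Function.iterate_succ_apply] at h5
    rcases h5 with h5 | h5 | ⟨i', hi', h5⟩
    · exact Or.inl h5
    · rcases mem_insert.1 h5 with h6 | h6
      · exact Or.inr (Or.inr ⟨0, by omega, h6.symm⟩)
      · exact Or.inr (Or.inl h6)
    · refine Or.inr (Or.inr ⟨i' + 1, by omega, ?_⟩)
      rw [← Function.iterate_succ_apply] at h5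
      exact h5

end Pool.Agent.W2helper40.MO
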